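import Pool.Agent.Helper49.Stab.NtrI

/-! Linearity of the transformation over the class of the loop, and the existence theorem. -/

open CategoryTheory Topology Filter Set Opposite

noncomputable section

namespace Pool.Agent.Helper49.Stab

open Pool.Agent.Helper1.Stab Pool.Agent.Helper63.Stab Pool.Agent.Helper67.Stab

section
variable {κ₀ : Type} [Fintype κ₀] {e : ℕ} (f : GenLoop (Fin (2 * e)) (GK κ₀) (GK.base κ₀))
  {R : Biv} {P : PRTheory R} {D : Datum} {x : P.Hom (LC.cpow (Fin e)) LC.point}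
  (G : NC67.Good (P := P) D x) {Θ : Fam R} {a' : R.Hom (LC.cpow (Fin e)) LC.point}
  (T : LocTheory D) (H : Hyp (P := P) Θ a' x)

theorem FF_sub {K Z : LC} (t t' : T.Hom K Z) :
    FF G T H (t - t') = FF G T H t - FF G T H t' := by
  have h := FF_add G T H (t - t') t'
  rw [sub_add_cancel] at h
  rw [h, add_sub_cancel_right]

theorem FF_loop (hx : IsHur P.toGBiv f x) {K Z : LC} (t : T.Hom K Z) :
    R.comp (R.tens (R.J (PMap.ofC (K := LC.sph e) (L := LC.G κ₀) (loopBar f))) K)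
      (FF G T H (T.mulx (T.g κ₀) t)) =
      R.mulx (R.J (PMap.toPoint (LC.sph e)) + R.comp (R.J (collSph e)) a') (FF G T H t) := by
  obtain ⟨s', n, y', hc, hs, hs'⟩ := cor_g G H κ₀ (FF_spec G T H t)
  obtain ⟨s, hsd⟩ : ∃ s, s = FF G T H t := ⟨_, rfl⟩
  rw [FF_eq G T H hc, ← hsd]
  rw [← hsd] at hs
  refine (H.bij ((LC.sph e).prod K) Z n).1 ?_
  change mpow a' _ n = mpow a' _ n
  have h3 : P.comp (P.J (PMap.ofC (K := LC.sph e) (L := LC.G κ₀) (loopBar f))) (P.g κ₀) =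
      P.J (PMap.toPoint (LC.sph e)) + P.comp (P.J (collSph e)) x := by
    have h : P.comp (P.J (collSph e)) x = P.comp (P.J (PMap.ofC (K := LC.sph e) (L := LC.G κ₀)
      (loopBar f))) (P.g κ₀) - P.J (PMap.toPoint (LC.sph e)) := hx
    rw [h]
    abel
  have h2 : R.comp (R.ltens (LC.ipow (LC.cpow (Fin e)) n) (R.tens (R.J (PMap.ofC (K := LC.sph e)
      (L := LC.G κ₀) (loopBar f))) K)) (Psi P Θ (P.comp (P.ltens (LC.ipow (LC.cpow (Fin e)) n)
        (P.act (P.g κ₀) K)) y')) = Psi P Θ (P.comp (P.ltens (LC.ipow (LC.cpow (Fin e)) n)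
        (P.act (P.J (PMap.toPoint (LC.sph e)) + P.comp (P.J (collSph e)) x) K)) y') := by
    rw [← Psi_pre, inc_ltens, P.inc_tens, P.inc_J, ← P.assoc, ← ltens_comp, ← act_left, h3]
  have h4 : Psi P Θ (P.comp (P.ltens (LC.ipow (LC.cpow (Fin e)) n)
        (P.act (P.J (PMap.toPoint (LC.sph e))) K)) y') =
      mpow a' (R.mulx (R.J (PMap.toPoint (LC.sph e))) s) n := by
    have h : P.act (P.J (PMap.toPoint (LC.sph e))) K =
        P.inc (R.act (R.J (PMap.toPoint (LC.sph e))) K) := by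
      rw [Biv.act, Biv.act, P.inc_comp, P.inc_tens, P.inc_J, inc_jh]
    rw [h, ← inc_ltens, Psi_pre, hs, ← mpow_pre, act_comp]
  have h5 : Psi P Θ (P.comp (P.ltens (LC.ipow (LC.cpow (Fin e)) n)
        (P.act (P.comp (P.J (collSph e)) x) K)) y') =
      mpow a' (R.mulx (R.comp (R.J (collSph e)) a') s) n := by
    rw [act_left, ltens_comp, P.assoc, act_mulx, ← P.inc_J, ← P.inc_tens, ← inc_ltens, Psi_pre,
      Psi_jh, H.lin, hs, ← act_mulx, ← mpow_pre, ← mpow_pre, act_comp, ← mulx_left]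
  rw [mpow_pre, ← hs', h2, act_add, P.ltens_add, P.add_comp, Psi_add, h4, h5, mulx_add_left,
    mpow_add]

theorem FF_lin (hx : IsHur P.toGBiv f x) (a : T.Hom (LC.cpow (Fin e)) LC.point)
    (ha : IsHur T.toGBiv f a) {K Z : LC} (t : T.Hom K Z) :
    FF G T H (T.mulx a t) = R.mulx a' (FF G T H t) := by
  refine inj_tens ?_
  have h0 : T.comp (T.J (collSph e)) a = T.comp (T.J (PMap.ofC (K := LC.sph e) (L := LC.G κ₀)
      (loopBar f))) (T.g κ₀) - T.J (PMap.toPoint (LC.sph e)) := ha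
  have h1 : R.comp (R.tens (R.J (collSph e)) K) (FF G T H (T.mulx a t)) =
      FF G T H (T.mulx (T.comp (T.J (collSph e)) a) t) := by
    rw [mulx_left (R := T.toBiv), T.tens_J, FF_pre, R.tens_J]
  have h2 : FF G T H (T.mulx (T.comp (T.J (PMap.ofC (K := LC.sph e) (L := LC.G κ₀)
      (loopBar f))) (T.g κ₀)) t) = R.comp (R.tens (R.J (PMap.ofC (K := LC.sph e)
        (L := LC.G κ₀) (loopBar f))) K) (FF G T H (T.mulx (T.g κ₀) t)) := by
    rw [mulx_left (R := T.toBiv), T.tens_J, FF_pre, R.tens_J]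
  have h3 : FF G T H (T.mulx (T.J (PMap.toPoint (LC.sph e))) t) =
      R.mulx (R.J (PMap.toPoint (LC.sph e))) (FF G T H t) := by
    rw [Biv.mulx, Biv.mulx, T.tens_J, FF_pre, FF_pre, R.tens_J]
  rw [h1, h0, mulx_sub_left (R := T.toBiv), FF_sub, h2, h3, FF_loop f G T H hx, mulx_add_left,
    add_sub_cancel_left, mulx_left]

end

section
variable {κ₀ : Type} [Fintype κ₀] {e : ℕ} (he : 0 < e)
  (f : GenLoop (Fin (2 * e)) (GK κ₀) (GK.base κ₀)) (T : LocTheory (loopDatum f))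
  (a : T.Hom (LC.cpow (Fin e)) LC.point) (ha : IsHur T.toGBiv f a)

include he ha

/-- Existence of natural transformations. -/
theorem exists_ntr' (R : Biv) (θ : ∀ (κ : Type) [Fintype κ], R.Hom (LC.G κ) LC.point)
    (hre : ∀ {κ l : Type} [Fintype κ] [Fintype l] (ε : κ ≃ l),
      R.comp (R.J (PMap.ofHomeo (K := LC.G κ) (L := LC.G l) (GK.reindex ε))) (θ l) = θ κ)
    (hst : ∀ (κ l : Type) [Fintype κ] [Fintype l], R.comp (R.J (GK.stab κ l)) (θ (κ ⊕ l)) = θ κ)
    (a' : R.Hom (LC.cpow (Fin e)) LC.point) (a'' : R.Hom LC.point (LC.cpow (Fin e)))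
    (h1 : R.comp a' a'' = R.J (PMap.id _)) (h2 : R.comp a'' a' = R.J (PMap.id _))
    (hloop : ∀ (κ : Type) [Fintype κ], R.comp (R.J (loopAct' f κ)) (θ (κ ⊕ κ₀)) =
      R.comp (R.act (θ κ) (LC.sph e))
        (R.J (PMap.toPoint (LC.sph e)) + R.comp (R.J (collSph e)) a')) :
    ∃ F : NTr T.toBiv R, (∀ (κ : Type) [Fintype κ], F.F (T.g κ) = θ κ) ∧
      ∀ {K Z : LC} (x : T.Hom K Z), F.F (T.mulx a x) = R.mulx a' (F.F x) := by
  obtain ⟨P⟩ := exists_PR R
  obtain ⟨x, hx⟩ := exists_hur P.toGBiv he f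
  obtain ⟨ρ', hρ', hl⟩ := Helper67.Stab.exists_loop_class P he f x hx
  obtain ⟨ρ, hρ, -⟩ := exists_rho R he f
  have G : NC67.Good (P := P) (loopDatum f) x := by
    refine ⟨?_, ?_, hl⟩
    · rw [Helper63.Stab.dm_pi, Fintype.card_fin]
      exact he
    · intro ι _
      rw [Helper63.Stab.dm_pi, Helper63.Stab.dm_pi, Fintype.card_prod, Fintype.card_prod, Fintype.card_option,
        Fintype.card_option, Fintype.card_fin]
      have h1 : Fintype.card (loopDatum f).w = e + 1 := Fintype.card_fin (e + 1)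
      have h2 : Fintype.card (loopDatum f).u = 1 := Fintype.card_fin 1
      rw [h1, h2]
      ring
  have hxρ : x = P.comp (P.inc ρ) (P.g κ₀) := by
    refine collSph_injective P.toBiv ?_
    have e1 : P.comp (P.J (collSph e)) (P.inc ρ) =
        P.J (PMap.ofC (K := LC.sph e) (L := LC.G κ₀) (loopBar f)) -
        P.J (PMap.ofC (K := LC.sph e) (L := LC.G κ₀) (ContinuousMap.const _ (GK.base κ₀))) := by
      rw [← P.inc_J, ← P.inc_comp, hρ, ← P.inc_J, ← P.inc_J, eq_sub_iff_add_eq, ← P.inc_add,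
        sub_add_cancel]
    exact hx.trans (isHur_rho P.toGBiv f (P.inc ρ) e1).symm
  obtain ⟨Θ, hΘ⟩ : ∃ Θ : Fam R, Θ = ⟨θ, hre, hst⟩ := ⟨_, rfl⟩
  have hθ : ∀ (κ : Type) [Fintype κ], Θ.θ κ = θ κ := by
    intro κ _
    rw [hΘ]
  have H : Hyp (P := P) Θ a' x := by
    refine ⟨fun {K Z} y => ?_, a'', h1, h2⟩
    rw [hxρ]
    refine Psi_mulx P Θ f a' (fun κ _ => ?_) ρ hρ y
    rw [hθ, hθ]
    exact hloop κ
  refine ⟨FNtr G T H, fun κ _ => ?_, fun {K Z} t => ?_⟩
  · exact (FF_g G T H κ).trans (hθ κ)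
  · exact FF_lin f G T H hx a ha t

end

end Pool.Agent.Helper49.Stab
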