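import Pool.Agent.Helper1.Stab.T.Sub

/-! Evaluation of classes over `R ∧ BU₊` at a compatible family of classes `θ κ ∈ R(G κ, pt)`. -/

open CategoryTheory Topology Filter Set Opposite

noncomputable section

namespace Pool.Agent.Helper49.Stab

open Pool.Agent.Helper1.Stab Pool.Agent.Helper63.Stab Pool.Agent.Helper67.Stab

/-! ## Evaluation at a class -/

section ee
variable {R : Biv} {G : LC}

/-- evaluation at `c ∈ R(G, pt)` -/
def ee (c : R.Hom G LC.point) {L Z : LC} (y : R.Hom L (G.prod Z)) : R.Hom L Z :=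
  R.comp y (R.comp (R.tens c Z) (jh R (lu Z)))

variable (c : R.Hom G LC.point) {K L Z Z' : LC}

theorem ee_add (y y' : R.Hom L (G.prod Z)) : ee c (y + y') = ee c y + ee c y' := R.add_comp _ _ _

theorem ee_pre (φ : R.Hom K L) (y : R.Hom L (G.prod Z)) :
    ee c (R.comp φ y) = R.comp φ (ee c y) := R.assoc _ _ _

theorem ee_nat {G' : LC} (c' : R.Hom G' LC.point) (g : R.Hom G G') (y : R.Hom L (G.prod Z)) :
    ee c' (R.comp y (R.tens g Z)) = ee (R.comp g c') y := by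
  rw [ee, ee, R.assoc, R.tens_comp, R.assoc]

theorem ee_post (y : R.Hom L (G.prod Z)) (ψ : R.Hom Z Z') :
    ee c (R.comp y (R.ltens G ψ)) = R.comp (ee c y) ψ := by
  have h1 : R.comp (R.ltens G ψ) (R.tens c Z') = R.comp (R.tens c Z) (R.ltens LC.point ψ) :=
    (R.exch c ψ).symm
  rw [ee, ee, R.assoc, R.assoc, R.assoc, ← R.assoc (R.ltens G ψ), h1, R.assoc, lu_nat]

theorem ee_tens (y : R.Hom L (G.prod Z)) (V : LC) :
    R.tens (ee c y) V = ee c (R.comp (R.tens y V) (jh R (K := (G.prod Z).prod V)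
      (L := G.prod (Z.prod V)) (Homeomorph.prodAssoc G Z V))) := by
  have h1 : R.comp (R.tens (R.tens c Z) V) (jh R (K := (LC.point.prod Z).prod V)
      (L := LC.point.prod (Z.prod V)) (Homeomorph.prodAssoc LC.point Z V)) =
      R.comp (jh R (K := (G.prod Z).prod V) (L := G.prod (Z.prod V)) (Homeomorph.prodAssoc G Z V))
        (R.tens c (Z.prod V)) := R.tens_tens c Z V
  rw [ee, ee, R.tens_comp, R.tens_comp, tens_lu, ← R.assoc (R.tens (R.tens c Z) V), h1]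
  simp only [R.assoc]

/-- a class as an evaluation -/
theorem ee_unit : ee c (jh R (Homeomorph.prodPUnit G : G.prod LC.point ≃ₜ G).symm) = c := by
  have h1 : R.comp (R.tens c LC.point) (jh R (lu LC.point)) =
      R.comp (jh R (Homeomorph.prodPUnit G : G.prod LC.point ≃ₜ G)) c := R.tens_point c
  rw [ee, h1, jh_symm_comp]

end ee

/-! ## Families -/

/-- a compatible family of classes -/
structure Fam (R : Biv) where
  θ : ∀ (κ : Type) [Fintype κ], R.Hom (LC.G κ) LC.point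
  re : ∀ {κ l : Type} [Fintype κ] [Fintype l] (ε : κ ≃ l),
      R.comp (R.J (PMap.ofHomeo (K := LC.G κ) (L := LC.G l) (GK.reindex ε))) (θ l) = θ κ
  st : ∀ (κ l : Type) [Fintype κ] [Fintype l], R.comp (R.J (GK.stab κ l)) (θ (κ ⊕ l)) = θ κ

section
variable {R : Biv} (P : PRTheory R) (Θ : Fam R)

theorem lf_ee {σ : Type} [Fintype σ] {L Z : LC} (y : R.Hom L ((LC.G σ).prod Z)) :
    lf P y = ee (R := P.toBiv) (P.g σ) (P.inc y) := rfl

theorem lf_add {σ : Type} [Fintype σ] {L Z : LC} (y y' : R.Hom L ((LC.G σ).prod Z)) :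
    lf P (y + y') = lf P y + lf P y' := by
  rw [lf_ee, lf_ee, lf_ee, P.inc_add, ee_add]

theorem lf_zero {σ : Type} [Fintype σ] {L Z : LC} :
    lf P (0 : R.Hom L ((LC.G σ).prod Z)) = 0 := by
  have h := lf_add P (0 : R.Hom L ((LC.G σ).prod Z)) 0
  rw [add_zero] at h
  exact left_eq_add.1 h

theorem lf_sub {σ : Type} [Fintype σ] {L Z : LC} (y y' : R.Hom L ((LC.G σ).prod Z)) :
    lf P (y - y') = lf P y - lf P y' := by
  have h := lf_add P (y - y') y'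
  rw [sub_add_cancel] at h
  rw [h, add_sub_cancel_right]

/-- evaluation at the family -/
def ev {σ : Type} [Fintype σ] {L Z : LC} (y : R.Hom L ((LC.G σ).prod Z)) : R.Hom L Z :=
  ee (Θ.θ σ) y

theorem ev_add {σ : Type} [Fintype σ] {L Z : LC} (y y' : R.Hom L ((LC.G σ).prod Z)) :
    ev Θ (y + y') = ev Θ y + ev Θ y' := ee_add _ _ _

theorem ev_zero {σ : Type} [Fintype σ] {L Z : LC} :
    ev Θ (0 : R.Hom L ((LC.G σ).prod Z)) = 0 := by
  have h := ev_add Θ (0 : R.Hom L ((LC.G σ).prod Z)) 0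
  rw [add_zero] at h
  exact left_eq_add.1 h

theorem ev_sub {σ : Type} [Fintype σ] {L Z : LC} (y y' : R.Hom L ((LC.G σ).prod Z)) :
    ev Θ (y - y') = ev Θ y - ev Θ y' := by
  have h := ev_add Θ (y - y') y'
  rw [sub_add_cancel] at h
  rw [h, add_sub_cancel_right]

theorem ev_stab {σ l : Type} [Fintype σ] [Fintype l] {L Z : LC} (y : R.Hom L ((LC.G σ).prod Z)) :
    ev Θ (R.comp y (R.tens (R.J (GK.stab σ l)) Z)) = ev Θ y := by
  rw [ev, ev, ee_nat, Θ.st]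

theorem ev_re {σ l : Type} [Fintype σ] [Fintype l] (e : σ ≃ l) {L Z : LC}
    (y : R.Hom L ((LC.G σ).prod Z)) :
    ev Θ (R.comp y (R.tens (jh R (K := LC.G σ) (L := LC.G l) (GK.reindex e)) Z)) = ev Θ y := by
  have h1 : R.comp (jh R (K := LC.G σ) (L := LC.G l) (GK.reindex e)) (Θ.θ l) = Θ.θ σ := Θ.re e
  rw [ev, ev, ee_nat, h1]

/-- evaluation is well-defined -/
theorem ev_eq {σ σ' : Type} [Fintype σ] [Fintype σ'] {L Z : LC} (y : R.Hom L ((LC.G σ).prod Z))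
    (y' : R.Hom L ((LC.G σ').prod Z)) (h : lf P y = lf P y') : ev Θ y = ev Θ y' := by
  obtain ⟨u, hu⟩ : ∃ u : R.Hom L ((LC.G (σ ⊕ σ')).prod Z),
      u = R.comp y (R.tens (R.J (GK.stab σ σ')) Z) := ⟨_, rfl⟩
  obtain ⟨u', hu'⟩ : ∃ u' : R.Hom L ((LC.G (σ ⊕ σ')).prod Z),
      u' = R.comp (R.comp y' (R.tens (R.J (GK.stab σ' σ)) Z))
        (R.tens (jh R (K := LC.G (σ' ⊕ σ)) (L := LC.G (σ ⊕ σ'))
          (GK.reindex (Equiv.sumComm σ' σ))) Z) := ⟨_, rfl⟩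
  have h1 : lf P u = lf P y := by rw [hu, lf_stab]
  have h2 : lf P u' = lf P y' := by rw [hu', lf_re, lf_stab]
  have h3 : ev Θ u = ev Θ y := by rw [hu, ev_stab]
  have h4 : ev Θ u' = ev Θ y' := by rw [hu', ev_re, ev_stab]
  have h5 : lf P (u - u') = 0 := by rw [lf_sub, h1, h2, h, sub_self]
  obtain ⟨m, hm⟩ := P.eq_zero (u - u') h5
  have h6 := ev_stab Θ (l := Fin m) (u - u')
  rw [hm, ev_zero, ev_sub, h3, h4] at h6
  exact (sub_eq_zero.1 h6.symm)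

/-- the evaluation of the classes over `R ∧ BU₊` -/
def Psi {K Z : LC} (x : P.Hom K Z) : R.Hom K Z := ev Θ (P.surj x 0).choose_spec.2.choose

theorem Psi_lf {σ : Type} [Fintype σ] {L Z : LC} (y : R.Hom L ((LC.G σ).prod Z)) :
    Psi P Θ (lf P y) = ev Θ y :=
  ev_eq P Θ _ _ (P.surj (lf P y) 0).choose_spec.2.choose_spec.symm

theorem exists_lf {K Z : LC} (x : P.Hom K Z) :
    ∃ (n : ℕ) (y : R.Hom K ((LC.G (Fin n)).prod Z)), x = lf P y := by
  obtain ⟨n, -, y, hy⟩ := P.surj x 0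
  exact ⟨n, y, hy⟩

theorem Psi_add {K Z : LC} (x x' : P.Hom K Z) : Psi P Θ (x + x') = Psi P Θ x + Psi P Θ x' := by
  obtain ⟨n, y, rfl⟩ := exists_lf P x
  obtain ⟨n', y', rfl⟩ := exists_lf P x'
  obtain ⟨u, hu⟩ : ∃ u : R.Hom K ((LC.G (Fin n ⊕ Fin n')).prod Z),
      u = R.comp y (R.tens (R.J (GK.stab (Fin n) (Fin n'))) Z) := ⟨_, rfl⟩
  obtain ⟨u', hu'⟩ : ∃ u' : R.Hom K ((LC.G (Fin n ⊕ Fin n')).prod Z),
      u' = R.comp (R.comp y' (R.tens (R.J (GK.stab (Fin n') (Fin n))) Z))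
        (R.tens (jh R (K := LC.G (Fin n' ⊕ Fin n)) (L := LC.G (Fin n ⊕ Fin n'))
          (GK.reindex (Equiv.sumComm (Fin n') (Fin n)))) Z) := ⟨_, rfl⟩
  have h1 : lf P u = lf P y := by rw [hu, lf_stab]
  have h2 : lf P u' = lf P y' := by rw [hu', lf_re, lf_stab]
  rw [← h1, ← h2, ← lf_add, Psi_lf, Psi_lf, Psi_lf, ev_add]

theorem Psi_pre {K K' Z : LC} (φ : R.Hom K' K) (x : P.Hom K Z) :
    Psi P Θ (P.comp (P.inc φ) x) = R.comp φ (Psi P Θ x) := by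
  obtain ⟨n, y, rfl⟩ := exists_lf P x
  have h1 : P.comp (P.inc φ) (lf P y) = lf P (R.comp φ y) := by
    rw [lf_ee, lf_ee, P.inc_comp, ee_pre]
  rw [h1, Psi_lf, Psi_lf, ev, ev, ee_pre]

theorem Psi_post {K Z Z' : LC} (x : P.Hom K Z) (ψ : R.Hom Z Z') :
    Psi P Θ (P.comp x (P.inc ψ)) = R.comp (Psi P Θ x) ψ := by
  obtain ⟨n, y, rfl⟩ := exists_lf P x
  have h1 : P.comp (lf P y) (P.inc ψ) = lf P (R.comp y (R.ltens (LC.G (Fin n)) ψ)) := by
    rw [lf_ee, lf_ee, P.inc_comp, inc_ltens, ee_post]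
  rw [h1, Psi_lf, Psi_lf, ev, ev, ee_post]

theorem Psi_tens {K Z : LC} (x : P.Hom K Z) (V : LC) :
    Psi P Θ (P.tens x V) = R.tens (Psi P Θ x) V := by
  obtain ⟨n, y, rfl⟩ := exists_lf P x
  have h1 : P.tens (lf P y) V = lf P (R.comp (R.tens y V) (jh R
      (K := ((LC.G (Fin n)).prod Z).prod V) (L := (LC.G (Fin n)).prod (Z.prod V))
      (Homeomorph.prodAssoc (LC.G (Fin n)) Z V))) := by
    rw [lf_ee, lf_ee, P.inc_comp, P.inc_tens, inc_jh, ee_tens]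
  rw [h1, Psi_lf, Psi_lf, ev, ev, ee_tens]

theorem Psi_jh {K K' Z : LC} (e : K' ≃ₜ K) (x : P.Hom K Z) :
    Psi P Θ (P.comp (jh P.toBiv e) x) = R.comp (jh R e) (Psi P Θ x) := by
  rw [← inc_jh, Psi_pre]

theorem Psi_J {K K' Z : LC} (f : PMap K' K.plus) (x : P.Hom K Z) :
    Psi P Θ (P.comp (P.J f) x) = R.comp (R.J f) (Psi P Θ x) := by
  rw [← P.inc_J, Psi_pre]

theorem Psi_comp_J {K Z Z' : LC} (x : P.Hom K Z) (f : PMap Z Z'.plus) :
    Psi P Θ (P.comp x (P.J f)) = R.comp (Psi P Θ x) (R.J f) := by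
  rw [← P.inc_J, Psi_post]

theorem Psi_g (κ : Type) [Fintype κ] : Psi P Θ (P.g κ) = Θ.θ κ := by
  have h1 : P.g κ = lf P (jh R (Homeomorph.prodPUnit (LC.G κ) :
      (LC.G κ).prod LC.point ≃ₜ LC.G κ).symm) := by
    rw [lf_ee, inc_jh, ee_unit]
  rw [h1, Psi_lf, ev, ee_unit]

end

end Pool.Agent.Helper49.Stab
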