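import Pool.Agent.Helper49.Stab.NtrA

/-! Multiplication with the class of a loop under the evaluation at a compatible family. -/

open CategoryTheory Topology Filter Set Opposite

noncomputable section

namespace Pool.Agent.Helper49.Stab

open Pool.Agent.Helper1.Stab Pool.Agent.Helper63.Stab Pool.Agent.Helper67.Stab

/-! ## Calculus of `mulx` -/

section
variable {R : Biv} {V K L Z : LC}

theorem mulx_def (x : R.Hom V LC.point) (y : R.Hom K Z) :
    R.mulx x y = R.comp (R.tens x K) (R.comp (jh R (lu K)) y) := rfl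

theorem mulx_left {W : LC} (φ : R.Hom W V) (x : R.Hom V LC.point) (y : R.Hom K Z) :
    R.mulx (R.comp φ x) y = R.comp (R.tens φ K) (R.mulx x y) := by
  rw [mulx_def, mulx_def, R.tens_comp, R.assoc]

theorem mulx_add_left (x x' : R.Hom V LC.point) (y : R.Hom K Z) :
    R.mulx (x + x') y = R.mulx x y + R.mulx x' y := by
  rw [mulx_def, mulx_def, mulx_def, R.tens_add, R.add_comp]

theorem mulx_add (x : R.Hom V LC.point) (y y' : R.Hom K Z) :
    R.mulx x (y + y') = R.mulx x y + R.mulx x y' := by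
  rw [mulx_def, mulx_def, mulx_def, R.comp_add, R.comp_add]

theorem mulx_sub_left (x x' : R.Hom V LC.point) (y : R.Hom K Z) :
    R.mulx (x - x') y = R.mulx x y - R.mulx x' y := by
  have h := mulx_add_left (x - x') x' y
  rw [sub_add_cancel] at h
  rw [h, add_sub_cancel_right]

/-- naturality in `K` -/
theorem mulx_pre (x : R.Hom V LC.point) (φ : R.Hom L K) (y : R.Hom K Z) :
    R.mulx x (R.comp φ y) = R.comp (R.ltens V φ) (R.mulx x y) := by
  rw [mulx_def, mulx_def, ← R.assoc (jh R (lu L)), lu_nat, R.assoc, ← R.assoc (R.tens x L),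
    R.exch, R.assoc]

theorem mulx_post {Z' : LC} (x : R.Hom V LC.point) (y : R.Hom K Z) (ψ : R.Hom Z Z') :
    R.mulx x (R.comp y ψ) = R.comp (R.mulx x y) ψ := by
  rw [mulx_def, mulx_def]
  simp only [R.assoc]

/-- naturality in the spectator -/
theorem mulx_tens (x : R.Hom V LC.point) (y : R.Hom K Z) (W : LC) :
    R.mulx x (R.tens y W) = R.comp (jh R (K := V.prod (K.prod W)) (L := (V.prod K).prod W)
      (Homeomorph.prodAssoc V K W).symm) (R.tens (R.mulx x y) W) := by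
  have h1 : R.comp (R.tens (R.tens x K) W) (jh R (K := (LC.point.prod K).prod W)
      (L := LC.point.prod (K.prod W)) (Homeomorph.prodAssoc LC.point K W)) =
      R.comp (jh R (K := (V.prod K).prod W) (L := V.prod (K.prod W)) (Homeomorph.prodAssoc V K W))
        (R.tens x (K.prod W)) := R.tens_tens x K W
  rw [mulx_def, mulx_def, R.tens_comp, R.tens_comp, tens_lu, R.assoc,
    ← R.assoc (R.tens (R.tens x K) W), h1]
  simp only [R.assoc]
  exact (jh_symm_comp R (K := (V.prod K).prod W) (L := V.prod (K.prod W))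
    (Homeomorph.prodAssoc V K W) _).symm

/-- the product of two classes to the point, in the other order -/
theorem swap_act (u : R.Hom V LC.point) (t : R.Hom K LC.point) :
    R.comp (jh R (LC.swap V K)) (R.comp (R.act t V) u) = R.mulx u t := by
  have h1 : R.comp (jh R (LC.lunit V)) u = R.comp (R.ltens LC.point u) (jh R (lu LC.point)) :=
    lu_nat u
  have h2 : R.comp (R.tens t LC.point) (jh R (lu LC.point)) =
      R.comp (jh R (Homeomorph.prodPUnit K : K.prod LC.point ≃ₜ K)) t := R.tens_point t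
  rw [Biv.act, R.assoc, h1, ← R.assoc (R.tens t V), R.exch, R.assoc, h2, ltens_def, mulx_def]
  simp only [R.assoc]
  have h3 : ∀ {Y : LC} (x : R.Hom (V.prod K) Y), R.comp (jh R (LC.swap V K))
      (R.comp (jh R (LC.swap K V)) x) = x := fun x => jh_comp_symm R (LC.swap V K) x
  rw [h3, ← R.assoc (jh R (LC.swap LC.point K)), ← jh_trans]
  congr 1

/-- the collapse of the sphere is split -/
theorem inj_tens {e : ℕ} {x y : R.Hom ((LC.cpow (Fin e)).prod K) L}
    (h : R.comp (R.tens (R.J (collSph e)) K) x = R.comp (R.tens (R.J (collSph e)) K) y) :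
    x = y := by
  obtain ⟨σ, hσ⟩ := Helper9.Stab.sph_section R e
  have h1 : R.comp σ (R.J (collSph e)) = R.J (PMap.id (LC.cpow (Fin e))) := hσ
  have h2 := congrArg (fun t => R.comp (R.tens σ K) t) h
  simp only [← R.assoc] at h2
  rw [← R.tens_comp, h1, tens_id, R.id_comp, R.id_comp] at h2
  exact h2

end

/-! ## Sums of bundles -/

theorem sum_comm {κ l : Type} [Fintype κ] [Fintype l] (x : GK κ) (y : GK l) :
    GK.reindex (Equiv.sumComm κ l) (GK.sum (x, y)) = GK.sum (y, x) := by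
  refine Datum.GK.ext ?_
  rintro ⟨i | i, b⟩ ⟨j | j, c⟩ <;> rfl

/-- the map `G(κ) × S^(2e) → G(κ ⊔ κ₀)`, `(V, z) ↦ V ⊕ f(z)` -/
def loopAct' {κ₀ : Type} [Fintype κ₀] {e : ℕ} (f : GenLoop (Fin (2 * e)) (GK κ₀) (GK.base κ₀))
    (κ : Type) [Fintype κ] : PMap ((LC.G κ).prod (LC.sph e)) (LC.G (κ ⊕ κ₀)).plus :=
  PMap.ofCont (K := (LC.G κ).prod (LC.sph e)) (L := LC.G (κ ⊕ κ₀))
    (fun x => GK.sum (x.1, loopBar f x.2))
    (GK.continuous_sum.comp (continuous_fst.prodMk ((loopBar f).continuous.comp continuous_snd)))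

section
variable {R : Biv} (P : PRTheory R) (Θ : Fam R) {κ₀ : Type} [Fintype κ₀] {e : ℕ}
  (f : GenLoop (Fin (2 * e)) (GK κ₀) (GK.base κ₀)) (a' : R.Hom (LC.cpow (Fin e)) LC.point)
  (hloop : ∀ (κ : Type) [Fintype κ], R.comp (R.J (loopAct' f κ)) (Θ.θ (κ ⊕ κ₀)) =
      R.comp (R.act (Θ.θ κ) (LC.sph e))
        (R.J (PMap.toPoint (LC.sph e)) + R.comp (R.J (collSph e)) a'))
  (ρ : R.Hom (LC.cpow (Fin e)) (LC.G κ₀))
  (hρ : R.comp (R.J (collSph e)) ρ =
        R.J (PMap.ofC (K := LC.sph e) (L := LC.G κ₀) (loopBar f)) -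
        R.J (PMap.ofC (K := LC.sph e) (L := LC.G κ₀) (ContinuousMap.const _ (GK.base κ₀))))

include hloop hρ in
/-- the family is compatible with the class of the loop -/
theorem rho_theta (σ : Type) [Fintype σ] :
    R.comp (R.tens ρ (LC.G σ)) (R.comp (R.J (GK.sumMap κ₀ σ)) (Θ.θ (κ₀ ⊕ σ))) =
      R.mulx a' (Θ.θ σ) := by
  refine inj_tens ?_
  obtain ⟨X, hX⟩ : ∃ X, X = R.comp (R.J (GK.sumMap κ₀ σ)) (Θ.θ (κ₀ ⊕ σ)) := ⟨_, rfl⟩
  have hre := Θ.re (Equiv.sumComm σ κ₀)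
  -- the part of the loop
  have h1 : R.comp (R.tens (R.J (PMap.ofC (K := LC.sph e) (L := LC.G κ₀) (loopBar f))) (LC.G σ)) X =
      R.mulx (R.J (PMap.toPoint (LC.sph e)) + R.comp (R.J (collSph e)) a') (Θ.θ σ) := by
    have e1 : (GK.sumMap κ₀ σ).comp ((PMap.ofC (K := LC.sph e) (L := LC.G κ₀)
        (loopBar f)).tens (LC.G σ)) = (PMap.ofHomeo (K := LC.G (σ ⊕ κ₀)) (L := LC.G (κ₀ ⊕ σ))
          (GK.reindex (Equiv.sumComm σ κ₀))).comp ((loopAct' f σ).comp
            (PMap.ofHomeo (LC.swap (LC.sph e) (LC.G σ)))) := by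
      ext ⟨z, Q⟩
      exact congrArg (fun G : GK (κ₀ ⊕ σ) => (G : OnePoint (GK (κ₀ ⊕ σ))))
        (sum_comm Q (loopBar f z)).symm
    rw [hX, R.tens_J, ← R.assoc, ← R.J_comp, e1, R.J_comp, R.J_comp, R.assoc, hre,
      R.assoc, hloop, jh_def, swap_act]
  -- the constant part
  have h2 : R.comp (R.tens (R.J (PMap.ofC (K := LC.sph e) (L := LC.G κ₀)
      (ContinuousMap.const _ (GK.base κ₀)))) (LC.G σ)) X =
      R.mulx (R.J (PMap.toPoint (LC.sph e))) (Θ.θ σ) := by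
    have e1 : (GK.sumMap κ₀ σ).comp ((PMap.ofC (K := LC.sph e) (L := LC.G κ₀)
        (ContinuousMap.const _ (GK.base κ₀))).tens (LC.G σ)) =
        (PMap.ofHomeo (K := LC.G (σ ⊕ κ₀)) (L := LC.G (κ₀ ⊕ σ))
          (GK.reindex (Equiv.sumComm σ κ₀))).comp ((GK.stab σ κ₀).comp
            ((PMap.ofHomeo (lu (LC.G σ))).comp ((PMap.toPoint (LC.sph e)).tens (LC.G σ)))) := by
      ext ⟨z, Q⟩
      exact congrArg (fun G : GK (κ₀ ⊕ σ) => (G : OnePoint (GK (κ₀ ⊕ σ))))
        (sum_comm Q (GK.base κ₀)).symm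
    rw [hX, R.tens_J, ← R.assoc, ← R.J_comp, e1, R.J_comp, R.J_comp, R.J_comp, R.assoc, hre,
      R.assoc, Θ.st, mulx_def, R.tens_J, R.assoc, jh_def]
  have h3 : R.comp (R.tens (R.J (collSph e)) (LC.G σ)) (R.comp (R.tens ρ (LC.G σ)) X) =
      R.comp (R.tens (R.J (PMap.ofC (K := LC.sph e) (L := LC.G κ₀) (loopBar f))) (LC.G σ)) X -
      R.comp (R.tens (R.J (PMap.ofC (K := LC.sph e) (L := LC.G κ₀)
      (ContinuousMap.const _ (GK.base κ₀)))) (LC.G σ)) X := by
    have e2 : R.comp (R.tens (R.J (collSph e)) (LC.G σ)) (R.comp (R.tens ρ (LC.G σ)) X) =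
        R.comp (R.tens (R.comp (R.J (collSph e)) ρ) (LC.G σ)) X := by
      rw [R.tens_comp, R.assoc]
    rw [e2, hρ, eq_sub_iff_add_eq, ← R.add_comp, ← R.tens_add, sub_add_cancel]
  rw [← hX, h3, h1, h2, mulx_add_left, add_sub_cancel_left, mulx_left]

include hloop hρ in
/-- the evaluation is linear over the class of the loop -/
theorem Psi_mulx {K Z : LC} (y : P.Hom K Z) :
    Psi P Θ (P.mulx (P.comp (P.inc ρ) (P.g κ₀)) y) = R.mulx a' (Psi P Θ y) := by
  obtain ⟨n, y, rfl⟩ := exists_lf P y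
  have h1 := lf_mul P ρ y
  have h2 : P.mulx (P.comp (P.inc ρ) (P.g κ₀)) (lf P y) = P.comp (P.tens (P.comp (P.inc ρ)
      (P.g κ₀)) K) (P.comp (jh P.toBiv (lu K)) (lf P y)) := rfl
  rw [h2, h1, Psi_lf, Psi_lf, ev, ev, ee_pre, ee_pre, ee_pre, ee, ee]
  have e1 : R.comp (R.tens (R.J (GK.sumMap κ₀ (Fin n))) Z) (R.comp (R.tens (Θ.θ (κ₀ ⊕ Fin n)) Z)
      (jh R (lu Z))) = R.comp (R.tens (R.comp (R.J (GK.sumMap κ₀ (Fin n)))
        (Θ.θ (κ₀ ⊕ Fin n))) Z) (jh R (lu Z)) := by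
    rw [R.tens_comp, R.assoc]
  have e2 : ∀ {A B C D : LC} (u : R.Hom A B), R.comp (R.tens u (C.prod D))
      (jh R (K := B.prod (C.prod D)) (L := (B.prod C).prod D) (Homeomorph.prodAssoc B C D).symm) =
      R.comp (jh R (K := A.prod (C.prod D)) (L := (A.prod C).prod D)
        (Homeomorph.prodAssoc A C D).symm) (R.tens (R.tens u C) D) := by
    intro A B C D u
    rw [tens_eq_pl u (C.prod D), pl_jh, tens_tens_eq_pl, jh_pl]
    exact pl_congr u (Homeomorph.refl _) _ _ _ _ (fun _ => rfl) (fun _ => rfl)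
  rw [e1, ← R.assoc (R.tens ρ K), R.exch, R.assoc, ← R.assoc (R.tens ρ _), e2, R.assoc,
    ← R.assoc (R.tens (R.tens ρ _) Z), ← R.tens_comp, rho_theta Θ f a' hloop ρ hρ (Fin n)]
  rw [mulx_pre]
  congr 1
  have e3 := mulx_tens a' (Θ.θ (Fin n)) Z
  rw [mulx_post, e3, R.assoc]

end

end Pool.Agent.Helper49.Stab
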