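import Pool.Agent.Helper49.Stab.NtrB

/-! Division by powers of an invertible class, and the classes of representatives. -/

open CategoryTheory Topology Filter Set Opposite

noncomputable section

namespace Pool.Agent.Helper49.Stab

open Pool.Agent.Helper1.Stab Pool.Agent.Helper63.Stab Pool.Agent.Helper67.Stab

/-! ## Powers -/

section
variable {R : Biv} {V K L Z : LC}

theorem mulx_bij {a : R.Hom V LC.point} {a'' : R.Hom LC.point V}
    (h1 : R.comp a a'' = R.J (PMap.id _)) (h2 : R.comp a'' a = R.J (PMap.id _)) (K Z : LC) :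
    Function.Bijective (fun y : R.Hom K Z => R.mulx a y) := by
  constructor
  · intro y y' h
    have h3 : R.mulx a y = R.mulx a y' := h
    have h4 := congrArg (fun t => R.comp (jh R (lu K).symm) (R.comp (R.tens a'' K) t)) h3
    simp only [mulx_def] at h4
    rw [← R.assoc (R.tens a'' K), ← R.assoc (R.tens a'' K), ← R.tens_comp, h2, tens_id, R.id_comp,
      R.id_comp, jh_symm_comp, jh_symm_comp] at h4
    exact h4
  · intro w
    refine ⟨R.comp (jh R (lu K).symm) (R.comp (R.tens a'' K) w), ?_⟩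
    change R.mulx a _ = w
    rw [mulx_def, jh_comp_symm, ← R.assoc, ← R.tens_comp, h1, tens_id, R.id_comp]

theorem nextx_def {n : ℕ} (a : R.Hom V LC.point) (y : R.Hom ((LC.ipow V n).prod K) Z) :
    R.nextx a y = R.comp (jh R (K := (LC.ipow V (n + 1)).prod K)
      (L := V.prod ((LC.ipow V n).prod K)) (Homeomorph.prodAssoc V (LC.ipow V n) K))
      (R.mulx a y) := rfl

theorem nextx_bij {a : R.Hom V LC.point} {a'' : R.Hom LC.point V}
    (h1 : R.comp a a'' = R.J (PMap.id _)) (h2 : R.comp a'' a = R.J (PMap.id _)) (K Z : LC)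
    (n : ℕ) : Function.Bijective (fun y : R.Hom ((LC.ipow V n).prod K) Z => R.nextx a y) :=
  ((R.invP_homeo (K := (LC.ipow V (n + 1)).prod K) (L := V.prod ((LC.ipow V n).prod K))
    (Homeomorph.prodAssoc V (LC.ipow V n) K)).pre_bij R (M := Z)).comp
    (mulx_bij h1 h2 ((LC.ipow V n).prod K) Z)

/-- iterated multiplication -/
def mpow (a : R.Hom V LC.point) {K Z : LC} (s : R.Hom K Z) : ∀ n, R.Hom ((LC.ipow V n).prod K) Z
  | 0 => R.comp (jh R (lu K)) s
  | n + 1 => R.nextx a (mpow a s n)

theorem nxt_mpow (a : R.Hom V LC.point) (s : R.Hom K Z) (n m : ℕ) :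
    NC67.nxt a (mpow a s n) m = mpow a s (n + m) := by
  induction m with
  | zero => rfl
  | succ m ih => exact congrArg (fun t => R.nextx a t) ih

theorem mpow_bij {a : R.Hom V LC.point} {a'' : R.Hom LC.point V}
    (h1 : R.comp a a'' = R.J (PMap.id _)) (h2 : R.comp a'' a = R.J (PMap.id _)) (K Z : LC)
    (n : ℕ) : Function.Bijective (fun s : R.Hom K Z => mpow a s n) := by
  induction n with
  | zero => exact (R.invP_homeo (lu K)).pre_bij R (M := Z)
  | succ n ih => exact (nextx_bij h1 h2 K Z n).comp ih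

theorem ltens_asc (V I : LC) {K L : LC} (φ : R.Hom L K) :
    R.comp (R.ltens (V.prod I) φ) (jh R (K := (V.prod I).prod K) (L := V.prod (I.prod K))
      (Homeomorph.prodAssoc V I K)) = R.comp (jh R (K := (V.prod I).prod L)
        (L := V.prod (I.prod L)) (Homeomorph.prodAssoc V I L)) (R.ltens V (R.ltens I φ)) := by
  rw [ltens_prod_eq V I φ, R.assoc, R.assoc, jh_symm_comp', R.comp_id]

theorem tens_asc {K L : LC} (φ : R.Hom K L) (V W : LC) :
    R.comp (R.tens (R.tens φ V) W) (jh R (K := (L.prod V).prod W) (L := L.prod (V.prod W))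
      (Homeomorph.prodAssoc L V W)) = R.comp (jh R (K := (K.prod V).prod W)
        (L := K.prod (V.prod W)) (Homeomorph.prodAssoc K V W)) (R.tens φ (V.prod W)) :=
  R.tens_tens φ V W

theorem tens_asc' {K L : LC} (φ : R.Hom K L) (V W : LC) :
    R.comp (R.tens φ (V.prod W)) (jh R (K := L.prod (V.prod W)) (L := (L.prod V).prod W)
      (Homeomorph.prodAssoc L V W).symm) = R.comp (jh R (K := K.prod (V.prod W))
        (L := (K.prod V).prod W) (Homeomorph.prodAssoc K V W).symm) (R.tens (R.tens φ V) W) := by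
  rw [tens_eq_pl φ (V.prod W), pl_jh, tens_tens_eq_pl, jh_pl]
  exact pl_congr φ (Homeomorph.refl _) _ _ _ _ (fun _ => rfl) (fun _ => rfl)

theorem mid_asc (I : LC) {K L : LC} (φ : R.Hom K L) (W : LC) :
    R.comp (R.tens (R.ltens I φ) W) (jh R (K := (I.prod L).prod W) (L := I.prod (L.prod W))
      (Homeomorph.prodAssoc I L W)) = R.comp (jh R (K := (I.prod K).prod W)
        (L := I.prod (K.prod W)) (Homeomorph.prodAssoc I K W)) (R.ltens I (R.tens φ W)) := by
  rw [ltens_eq_pl, tens_pl, tens_eq_pl, ltens_pl, pl_jh, jh_pl]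
  exact pl_congr φ (Homeomorph.refl _) _ _ _ _ (fun _ => rfl) (fun _ => rfl)

theorem nextx_pre {n : ℕ} (a : R.Hom V LC.point) (φ : R.Hom L K)
    (y : R.Hom ((LC.ipow V n).prod K) Z) :
    R.nextx a (R.comp (R.ltens (LC.ipow V n) φ) y) =
      R.comp (R.ltens (LC.ipow V (n + 1)) φ) (R.nextx a y) := by
  have e1 := ltens_asc V (LC.ipow V n) φ
  rw [nextx_def, mulx_pre, ← R.assoc]
  refine (congrArg (fun t => R.comp t (R.mulx a y)) e1.symm).trans ?_
  exact R.assoc _ _ _

theorem mpow_pre (a : R.Hom V LC.point) (φ : R.Hom L K) (s : R.Hom K Z) (n : ℕ) :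
    mpow a (R.comp φ s) n = R.comp (R.ltens (LC.ipow V n) φ) (mpow a s n) := by
  induction n with
  | zero =>
    change R.comp (jh R (lu L)) (R.comp φ s) = R.comp (R.ltens LC.point φ)
      (R.comp (jh R (lu K)) s)
    rw [← R.assoc, lu_nat, R.assoc]
  | succ n ih =>
    change R.nextx a (mpow a (R.comp φ s) n) = _
    rw [ih, nextx_pre]
    rfl

theorem mpow_post {Z' : LC} (a : R.Hom V LC.point) (s : R.Hom K Z) (ψ : R.Hom Z Z') (n : ℕ) :
    mpow a (R.comp s ψ) n = R.comp (mpow a s n) ψ := by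
  induction n with
  | zero => exact (R.assoc _ _ _).symm
  | succ n ih =>
    change R.nextx a (mpow a (R.comp s ψ) n) = R.comp (R.nextx a (mpow a s n)) ψ
    rw [ih, nextx_def, mulx_post, nextx_def, R.assoc]

theorem mpow_tens (a : R.Hom V LC.point) (s : R.Hom K Z) (W : LC) (n : ℕ) :
    mpow a (R.tens s W) n = R.comp (jh R (K := (LC.ipow V n).prod (K.prod W))
      (L := ((LC.ipow V n).prod K).prod W) (Homeomorph.prodAssoc (LC.ipow V n) K W).symm)
      (R.tens (mpow a s n) W) := by
  induction n with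
  | zero =>
    have h1 : R.tens (mpow a s 0) W = R.comp (jh R (K := (LC.point.prod K).prod W)
        (L := LC.point.prod (K.prod W)) (Homeomorph.prodAssoc LC.point K W))
        (R.comp (jh R (lu (K.prod W))) (R.tens s W)) := by
      change R.tens (R.comp (jh R (lu K)) s) W = _
      rw [R.tens_comp, tens_lu, R.assoc]
    rw [h1]
    exact (jh_symm_comp R (K := (LC.point.prod K).prod W) (L := LC.point.prod (K.prod W))
      (Homeomorph.prodAssoc LC.point K W) _).symm
  | succ n ih =>
    change R.nextx a (mpow a (R.tens s W) n) = R.comp (jh R (K := (LC.ipow V (n + 1)).prod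
      (K.prod W)) (L := ((LC.ipow V (n + 1)).prod K).prod W)
      (Homeomorph.prodAssoc (LC.ipow V (n + 1)) K W).symm) (R.tens (R.nextx a (mpow a s n)) W)
    rw [ih, nextx_def, nextx_def, mulx_pre, mulx_tens, R.tens_comp, tens_jh, ltens_jh,
      ← R.assoc, ← R.assoc, ← R.assoc, ← jh_trans, ← jh_trans, ← jh_trans]
    congr 1

end

end Pool.Agent.Helper49.Stab
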