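import Pool.Agent.Helper49.Stab.NtrC

/-! The relation between the elements of a localisation and the elements of a theory. -/

open CategoryTheory Topology Filter Set Opposite

noncomputable section

namespace Pool.Agent.Helper49.Stab

open Pool.Agent.Helper1.Stab Pool.Agent.Helper63.Stab Pool.Agent.Helper67.Stab

/-! ## The relation `Rel` -/

section
variable {R : Biv} {W W' U K Z : LC} [Crd W] [Crd W'] [Crd U]

theorem rel_post {Z' : LC} {z : R.Hom (W.prod K) (W'.prod Z)} {y : R.Hom (U.prod K) Z}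
    (h : Rel z y) (ψ : R.Hom Z Z') : Rel (R.comp z (R.ltens W' ψ)) (R.comp y ψ) := by
  obtain ⟨a, ha, rfl⟩ := h
  exact ⟨a, ha, by rw [R.assoc, ltens_comp]⟩

theorem rel_tens {z : R.Hom (W.prod K) (W'.prod Z)} {y : R.Hom (U.prod K) Z}
    (h : Rel z y) (V : LC) : Rel (K := K.prod V) (Z := Z.prod V)
      (R.comp (jh R (K := W.prod (K.prod V)) (L := (W.prod K).prod V)
        (Homeomorph.prodAssoc W K V).symm) (R.comp (R.tens z V)
        (jh R (K := (W'.prod Z).prod V) (L := W'.prod (Z.prod V)) (Homeomorph.prodAssoc W' Z V))))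
      (R.comp (jh R (K := U.prod (K.prod V)) (L := (U.prod K).prod V)
        (Homeomorph.prodAssoc U K V).symm) (R.tens y V)) := by
  obtain ⟨a, ha, rfl⟩ := h
  refine ⟨a, ha, ?_⟩
  rw [R.tens_comp, R.assoc, mid_asc, ltens_comp, tens_jh, ltens_jh, jj, jj, jj]
  congr 1

end

/-! ## Classes of representatives -/

section
variable (R : Biv) {D : Datum} {ι κ : Type} [Fintype ι] [Fintype κ] {K L Z : LC}

theorem J_stab (F : D.Rep ι K Z) : R.J (F.stab κ) = stR (R.J F) κ := by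
  rw [Datum.Rep.stab, R.J_comp, R.J_comp, R.J_comp, J_box, stR, R.tens_J (D.mulB ι κ) Z]
  simp only [R.assoc]

theorem J_re (e : ι ≃ κ) (F : D.Rep ι K Z) : R.J (F.re e) = rR e (R.J F) := by
  rw [Datum.Rep.re, R.J_comp, R.J_comp, rR, R.tens_J, R.tens_J, R.assoc]
  rfl

theorem J_rpre (φ : PMap K L.plus) (F : D.Rep ι L Z) :
    R.J (Datum.Rep.pre φ F) = R.comp (R.ltens (D.A ι) (R.J φ)) (R.J F) := by
  rw [Datum.Rep.pre, R.J_comp, ltens_J]

theorem J_rpost (F : D.Rep ι K L) (ψ : PMap L Z.plus) :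
    R.J (F.post ψ) = R.comp (R.J F) (R.ltens (D.B ι) (R.J ψ)) := by
  rw [Datum.Rep.post, R.J_comp, ltens_J]

theorem J_rtens (F : D.Rep ι K L) (W : LC) : R.J (F.tens W) =
    R.comp (jh R (K := (D.A ι).prod (K.prod W)) (L := ((D.A ι).prod K).prod W)
        (Homeomorph.prodAssoc (D.A ι) K W).symm) (R.comp (R.tens (R.J F) W)
        (jh R (K := ((D.B ι).prod L).prod W) (L := (D.B ι).prod (L.prod W))
          (Homeomorph.prodAssoc (D.B ι) L W))) := by
  rw [Datum.Rep.tens, R.J_comp, R.J_comp, R.tens_J, R.assoc]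
  rfl

end

section
variable {R : Biv} (P : PRTheory R) {D : Datum} {ι : Type} [Fintype ι] {K L Z : LC}

theorem hat_post (y : R.Hom ((D.A ι).prod K) ((D.B ι).prod L)) (ψ : R.Hom L Z) :
    hat P (R.comp y (R.ltens (D.B ι) ψ)) =
      P.comp (hat P y) (P.ltens (SS D ι) (P.inc ψ)) := by
  rw [hat, hat, P.inc_comp, inc_ltens, P.assoc, P.assoc]
  congr 1
  exact (P.exch _ _).symm

theorem hat_tens (y : R.Hom ((D.A ι).prod K) ((D.B ι).prod Z)) (V : LC) :
    hat P (Z := Z.prod V) (R.comp (jh R (K := (D.A ι).prod (K.prod V)) (L := ((D.A ι).prod K).prod V)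
        (Homeomorph.prodAssoc (D.A ι) K V).symm) (R.comp (R.tens y V)
        (jh R (K := ((D.B ι).prod Z).prod V) (L := (D.B ι).prod (Z.prod V))
          (Homeomorph.prodAssoc (D.B ι) Z V)))) =
      P.comp (jh P.toBiv (K := (D.A ι).prod (K.prod V)) (L := ((D.A ι).prod K).prod V)
        (Homeomorph.prodAssoc (D.A ι) K V).symm) (P.comp (P.tens (hat P y) V)
        (jh P.toBiv (K := ((SS D ι).prod Z).prod V) (L := (SS D ι).prod (Z.prod V))
          (Homeomorph.prodAssoc (SS D ι) Z V))) := by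
  have e1 := tens_asc (R := P.toBiv) (gh P.toGBiv D ι) Z V
  rw [hat, P.inc_comp, P.inc_comp, inc_jh, inc_jh, P.inc_tens, P.assoc, P.assoc, ← e1, hat,
    P.tens_comp, P.assoc]

end

/-! ## The relation between elements -/

section
variable {R : Biv} {P : PRTheory R} {D : Datum} {V : LC} [Crd V] {x : P.Hom V LC.point}
  (G : NC67.Good (P := P) D x)

include G in
theorem exists_relK {ι : Type} [Fintype ι] {K Z : LC}
    (y : R.Hom ((D.A ι).prod K) ((D.B ι).prod Z)) :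
    ∃ y' : P.Hom ((LC.ipow V (Fintype.card ι)).prod K) Z, Rel (hat P y) y' := by
  refine exists_rel _ ?_
  rw [NC67.dm_ipow, G.dim, dm_prod, dm_point, dm_pi, add_zero]

include G in
theorem rel_stabK {ι : Type} [Fintype ι] {K Z : LC}
    {y : R.Hom ((D.A ι).prod K) ((D.B ι).prod Z)} {n : ℕ}
    {y' : P.Hom ((LC.ipow V n).prod K) Z} (h : Rel (hat P y) y') (κ : Type) [Fintype κ] :
    Rel (hat P (stR y κ)) (NC67.nxt (R := P.toBiv) x y' (Fintype.card κ)) := by
  have h1 := rel_stR P h (NC67.like_shC x G.like κ)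
  obtain ⟨p, hp, h2⟩ := NC67.exists_mulX_xp (R := P.toBiv) x y' (Fintype.card κ)
  rw [h2] at h1
  exact h1.of_perm hp

variable (Θ : Fam R) (a' : R.Hom V LC.point) (T : LocTheory D)

/-- an element of the localisation and an element of the theory with the same class -/
def Cor (P : PRTheory R) {K Z : LC} (t : T.Hom K Z) (s : R.Hom K Z) : Prop :=
  ∃ (ι : Type) (_ : Fintype ι) (F : D.Rep ι K Z) (n : ℕ) (y' : P.Hom ((LC.ipow V n).prod K) Z),
    t = T.cls F ∧ Rel (hat P (R.J F)) y' ∧ Psi P Θ y' = mpow a' s n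

/-- the assumptions -/
structure Hyp (x : P.Hom V LC.point) : Prop where
  lin : ∀ {K Z : LC} (y : P.Hom K Z), Psi P Θ (P.mulx x y) = R.mulx a' (Psi P Θ y)
  inv : ∃ a'' : R.Hom LC.point V, R.comp a' a'' = R.J (PMap.id _) ∧
    R.comp a'' a' = R.J (PMap.id _)

variable {Θ a' T} (H : Hyp (P := P) Θ a' x)

omit [Crd V] in
include H in
theorem Hyp.bij (K Z : LC) (n : ℕ) : Function.Bijective (fun s : R.Hom K Z => mpow a' s n) := by
  obtain ⟨a'', h1, h2⟩ := H.inv
  exact mpow_bij h1 h2 K Z n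

omit [Crd V] in
include H in
theorem Psi_nextx {K Z : LC} {n : ℕ} (y : P.Hom ((LC.ipow V n).prod K) Z) :
    Psi P Θ (P.nextx x y) = R.nextx a' (Psi P Θ y) := by
  have h1 := Psi_jh P Θ (K := V.prod ((LC.ipow V n).prod K)) (K' := (LC.ipow V (n + 1)).prod K)
    (Homeomorph.prodAssoc V (LC.ipow V n) K) (P.mulx x y)
  rw [H.lin] at h1
  exact h1

omit [Crd V] in
include H in
theorem Psi_nxt {K Z : LC} {n : ℕ} (y : P.Hom ((LC.ipow V n).prod K) Z) (m : ℕ) :
    Psi P Θ (NC67.nxt (R := P.toBiv) x y m) = NC67.nxt a' (Psi P Θ y) m := by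
  induction m with
  | zero => rfl
  | succ m ih => exact (Psi_nextx H _).trans (congrArg (fun t => R.nextx a' t) ih)

include G H in
theorem cor_exists {K Z : LC} (t : T.Hom K Z) : ∃ s : R.Hom K Z, Cor Θ a' T P t s := by
  obtain ⟨n, -, F, rfl⟩ := T.cls_surj t 0
  obtain ⟨y', h⟩ := exists_relK G (R.J F)
  obtain ⟨s, hs⟩ := (H.bij K Z _).2 (Psi P Θ y')
  exact ⟨s, Fin n, inferInstance, F, _, y', rfl, h, hs.symm⟩

include G H in
theorem cor_same {W W' K Z : LC} [Crd W] [Crd W'] {z : P.Hom (W.prod K) (W'.prod Z)} {n n' : ℕ}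
    {y : P.Hom ((LC.ipow V n).prod K) Z} {y' : P.Hom ((LC.ipow V n').prod K) Z}
    (h : Rel z y) (h' : Rel z y') {s s' : R.Hom K Z} (hs : Psi P Θ y = mpow a' s n)
    (hs' : Psi P Θ y' = mpow a' s' n') : s = s' := by
  have h1 := h.dm_eq
  have h2 := h'.dm_eq
  rw [NC67.dm_ipow] at h1 h2
  have h3 : n * dm V = n' * dm V := by omega
  have h4 : n = n' := Nat.eq_of_mul_eq_mul_right G.pos h3
  subst h4
  have h5 := h.unique h' (IsPerm.refl _)
  rw [jh_id P.toBiv (K := (LC.ipow V n).prod K) (e := (Homeomorph.refl (LC.ipow V n)).prodCongr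
    (Homeomorph.refl K)) (fun _ => rfl), P.id_comp] at h5
  rw [h5, hs'] at hs
  exact ((H.bij K Z n).1 hs).symm

include G H in
theorem cor_unique {K Z : LC} {t : T.Hom K Z} {s s' : R.Hom K Z} (h : Cor Θ a' T P t s)
    (h' : Cor Θ a' T P t s') : s = s' := by
  obtain ⟨ι, _, F, n, y, rfl, hr, hs⟩ := h
  obtain ⟨ι', _, F', n', y', ht, hr', hs'⟩ := h'
  have h1 : T.cls (F.stab ι') = T.cls ((F'.stab ι).re (Equiv.sumComm ι' ι)) := by
    rw [T.cls_stab, T.cls_re, T.cls_stab, ht]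
  obtain ⟨m, hm⟩ := T.cls_eq h1
  have h2 := R.J_homotopic hm
  rw [J_stab, J_stab, J_stab, J_re, J_stab] at h2
  have r1 := rel_stabK G (rel_stabK G hr ι') (Fin m)
  have r2 := rel_stabK G (rel_rR P (Equiv.sumComm ι' ι) (rel_stabK G hr' ι)) (Fin m)
  rw [← h2] at r2
  refine cor_same G H r1 r2 (n := n + Fintype.card ι' + Fintype.card (Fin m))
    (n' := n' + Fintype.card ι + Fintype.card (Fin m)) ?_ ?_
  · rw [Psi_nxt H, Psi_nxt H, hs, nxt_mpow, nxt_mpow]
  · rw [Psi_nxt H, Psi_nxt H, hs', nxt_mpow, nxt_mpow]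

theorem cor_pre {K L Z : LC} (φ : PMap K L.plus) {t : T.Hom L Z} {s : R.Hom L Z}
    (h : Cor Θ a' T P t s) : Cor Θ a' T P (T.comp (T.J φ) t) (R.comp (R.J φ) s) := by
  obtain ⟨ι, _, F, n, y, rfl, hr, hs⟩ := h
  refine ⟨ι, inferInstance, Datum.Rep.pre φ F, n, P.comp (P.ltens (LC.ipow V n) (P.J φ)) y,
    T.J_comp_cls φ F, ?_, ?_⟩
  · rw [J_rpre, hat_pre, P.inc_J]
    exact hr.pre (P.J φ)
  · rw [mpow_pre, ← hs, ← P.inc_J, ← inc_ltens, Psi_pre]

theorem cor_post {K L Z : LC} (ψ : PMap L Z.plus) {t : T.Hom K L} {s : R.Hom K L}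
    (h : Cor Θ a' T P t s) : Cor Θ a' T P (T.comp t (T.J ψ)) (R.comp s (R.J ψ)) := by
  obtain ⟨ι, _, F, n, y, rfl, hr, hs⟩ := h
  refine ⟨ι, inferInstance, F.post ψ, n, P.comp y (P.J ψ), T.cls_comp_J F ψ, ?_, ?_⟩
  · rw [J_rpost, hat_post, P.inc_J]
    exact rel_post hr (P.J ψ)
  · rw [mpow_post, ← hs, Psi_comp_J]

theorem cor_tens {K Z : LC} (W : LC) {t : T.Hom K Z} {s : R.Hom K Z}
    (h : Cor Θ a' T P t s) : Cor Θ a' T P (T.tens t W) (R.tens s W) := by
  obtain ⟨ι, _, F, n, y, rfl, hr, hs⟩ := h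
  refine ⟨ι, inferInstance, F.tens W, n, P.comp (jh P.toBiv (K := (LC.ipow V n).prod (K.prod W))
      (L := ((LC.ipow V n).prod K).prod W) (Homeomorph.prodAssoc (LC.ipow V n) K W).symm)
      (P.tens y W), T.tens_cls F W, ?_, ?_⟩
  · rw [J_rtens, hat_tens]
    exact rel_tens hr W
  · rw [mpow_tens, ← hs, Psi_jh, Psi_tens]

end

end Pool.Agent.Helper49.Stab
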