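import Pool.Agent.Helper49.Stab.NtrD

/-! Multiplication with the classes of the tautological bundles on representatives. -/

open CategoryTheory Topology Filter Set Opposite

noncomputable section

namespace Pool.Agent.Helper49.Stab

open Pool.Agent.Helper1.Stab Pool.Agent.Helper63.Stab Pool.Agent.Helper67.Stab

/-! ## The class of the transition map with a bundle in the free slots -/

/-- exchange of the free slots with new slots -/
def slotX (κ a : Type) : (κ × Option a) ⊕ κ ≃ (κ × Option a) ⊕ κ where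
  toFun x := match x with
    | .inl (i, none) => .inr i
    | .inl (i, some j) => .inl (i, some j)
    | .inr i => .inl (i, none)
  invFun x := match x with
    | .inl (i, none) => .inr i
    | .inl (i, some j) => .inl (i, some j)
    | .inr i => .inl (i, none)
  left_inv x := by rcases x with ⟨i, _ | j⟩ | i <;> rfl
  right_inv x := by rcases x with ⟨i, _ | j⟩ | i <;> rfl

theorem slotX_eq {κ a : Type} [Fintype κ] [Fintype a] (A : GK κ) (Q : GK (κ × a)) :
    GK.sum (GK.reindex (optEquiv κ a) (GK.sum (A, Q)), GK.base κ) =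
      GK.reindex (slotX κ a) (GK.sum (GK.reindex (optEquiv κ a) (GK.sum (GK.base κ, Q)), A)) := by
  refine Datum.GK.ext ?_
  rintro ⟨⟨i, _ | j⟩ | i, b⟩ ⟨⟨i', _ | j'⟩ | i', b'⟩ <;> rfl

theorem shatG_stab (D : Datum) (κ : Type) [Fintype κ] :
    (PMap.ltens (LC.cpow (κ × Option D.u)) (GK.stab (κ × Option D.a) κ)).comp (D.shatG κ) =
      (PMap.ltens (LC.cpow (κ × Option D.u)) ((PMap.ofHomeo (K := LC.G ((κ × Option D.a) ⊕ κ))
        (L := LC.G ((κ × Option D.a) ⊕ κ)) (GK.reindex (slotX κ D.a))).comp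
          (GK.sumMap (κ × Option D.a) κ))).comp
        ((PMap.ofHomeo (K := (D.B κ).prod (LC.G κ)) (L := (LC.cpow (κ × Option D.u)).prod
          ((LC.G (κ × Option D.a)).prod (LC.G κ))) (Homeomorph.prodAssoc
            (LC.cpow (κ × Option D.u)) (LC.G (κ × Option D.a)) (LC.G κ))).comp
          ((D.shat κ).tens (LC.G κ))) := by
  ext ⟨v, Q⟩
  rcases D.shatG_cases κ v with ⟨i, hi⟩ | ⟨y, hy⟩
  · have h1 := D.shatG_none κ v Q i hi
    have h2 : D.shat κ v = OnePoint.infty := (D.shat_eq κ v).trans (D.shatG_none κ v _ i hi)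
    rw [comp_bnd, h1, comp_bnd, comp_bnd, box_bnd, h2]
    rfl
  · have h1 := D.shatG_some κ v Q y hy
    have h2 := (D.shat_eq κ v).trans (D.shatG_some κ v _ y hy)
    rw [comp_bnd, h1, comp_bnd, comp_bnd, box_bnd, h2]
    have h3 := slotX_eq Q (blockDiag fun i => (y i).2)
    refine congrArg (fun z : (LC.cpow (κ × Option D.u)).prod (LC.G ((κ × Option D.a) ⊕ κ)) =>
      (z : OnePoint ((LC.cpow (κ × Option D.u)).prod (LC.G ((κ × Option D.a) ⊕ κ)))))
      (Prod.ext rfl ?_)
    exact h3

theorem asc_gg {R : Biv} (C : LC) {G' G : LC} (g' : R.Hom G' LC.point) (g : R.Hom G LC.point) :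
    R.comp (jh R (K := (C.prod G').prod G) (L := C.prod (G'.prod G)) (Homeomorph.prodAssoc C G' G))
      (R.comp (R.ltens C (R.tens g' G)) (R.comp (R.ltens C (R.ltens LC.point g))
        (R.ltens C (jh R (K := LC.point.prod LC.point) (L := LC.point)
          (Homeomorph.prodPUnit LC.point))))) =
      R.comp (R.tens (R.ltens C g') G) (R.comp (R.ltens (C.prod LC.point) g)
        (jh R (K := (C.prod LC.point).prod LC.point) (L := C.prod LC.point)
          (Homeomorph.prodPUnit (C.prod LC.point)))) := by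
  have h2 := mid_asc C g' G
  have h3 := ltens_asc C LC.point g
  rw [← R.assoc (jh R _), ← h2, R.assoc, ← R.assoc (jh R _), ← h3, R.assoc, ltens_jh, ← jh_trans]
  rfl

theorem J_shatG (P : GBiv) (D : Datum) (κ : Type) [Fintype κ] :
    P.comp (P.J (D.shatG κ)) (gh P D κ) = P.comp (P.tens (shC P D κ) (LC.G κ))
      (P.comp (P.ltens (SS D κ) (P.g κ)) (jh P.toBiv (K := (SS D κ).prod LC.point) (L := SS D κ)
        (Homeomorph.prodPUnit (SS D κ)))) := by
  have h1 := congrArg (fun t => P.comp (P.J t) (P.ltens (LC.cpow (κ × Option D.u))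
    (P.g ((κ × Option D.a) ⊕ κ)))) (shatG_stab D κ)
  simp only [P.J_comp, P.assoc] at h1
  rw [← ltens_J, ← ltens_J, ← ltens_comp, ← ltens_comp, g_stab, P.J_comp, P.assoc,
    P.g_reindex (slotX κ D.a), g_sum', ltens_comp, ltens_comp, jh_def] at h1
  have h4 := asc_gg (R := P.toBiv) (LC.cpow (κ × Option D.u)) (P.g (κ × Option D.a)) (P.g κ)
  refine h1.trans ((congrArg (fun t => P.comp (P.J ((D.shat κ).tens (LC.G κ))) t) h4).trans ?_)
  simp only
  rw [← P.assoc, ← P.tens_J, ← P.tens_comp]
  rfl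

end Pool.Agent.Helper49.Stab
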