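import Pool.Agent.Helper49.Stab.NtrE

/-! The product of the class of a tautological bundle with an element of the localisation. -/

open CategoryTheory Topology Filter Set Opposite

noncomputable section

namespace Pool.Agent.Helper49.Stab

open Pool.Agent.Helper1.Stab Pool.Agent.Helper63.Stab Pool.Agent.Helper67.Stab

/-! ## The representative -/

section
variable {D : Datum} {ι : Type} [Fintype ι] {K Z : LC}

/-- the representative of the product with a tautological bundle -/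
def mulG (κ : Type) [Fintype κ] (F : D.Rep ι K Z) : D.Rep (ι ⊕ κ) ((LC.G κ).prod K) Z :=
  (Datum.Rep.ltens (LC.G κ) F).cmp
    (((Datum.Rep.taut D κ).tens Z).post (PMap.ofHomeo (LC.lunit Z)))

theorem cls_mulG (T : LocTheory D) (κ : Type) [Fintype κ] (F : D.Rep ι K Z) :
    T.cls (mulG κ F) = T.mulx (T.g κ) (T.cls F) := by
  have h1 : T.comp (T.J (PMap.ofHomeo (LC.lunit K))) (T.cls F) =
      T.comp (T.ltens LC.point (T.cls F)) (jh T.toBiv (lu Z)) := lu_nat (R := T.toBiv) (T.cls F)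
  rw [mulG, ← T.comp_cls, ← T.ltens_cls, ← T.cls_comp_J, ← T.tens_cls, ← T.g_eq, Biv.mulx, h1,
    ← T.assoc (T.ltens _ _), ← T.exch, T.assoc]
  rfl

/-- the reordering of the source -/
def piG (D : Datum) (ι κ : Type) [Fintype ι] [Fintype κ] (K : LC) :
    (D.A (ι ⊕ κ)).prod ((LC.G κ).prod K) ≃ₜ ((D.A ι).prod K).prod ((D.A κ).prod (LC.G κ)) where
  toFun v := (((D.splitA ι κ v.1).1, v.2.2), ((D.splitA ι κ v.1).2, v.2.1))
  invFun v := ((D.splitA ι κ).symm (v.1.1, v.2.1), (v.2.2, v.1.2))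
  left_inv v := by
    have h : (((D.splitA ι κ v.1).1, (D.splitA ι κ v.1).2) : (D.A ι).prod (D.A κ)) =
      D.splitA ι κ v.1 := rfl
    simp only [h, Homeomorph.symm_apply_apply]
  right_inv v := by simp only [Homeomorph.apply_symm_apply]
  continuous_toFun := by fun_prop
  continuous_invFun := by fun_prop

theorem mulG_eq (κ : Type) [Fintype κ] (F : D.Rep ι K Z) : mulG κ F =
    ((D.mulB ι κ).tens Z).comp ((PMap.ofHomeo (LC.rr (D.B ι) Z (D.B κ))).comp
      ((PMap.box F (D.shatG κ)).comp (PMap.ofHomeo (piG D ι κ K)))) := by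
  ext ⟨v, Q, k⟩
  rw [mulG, Datum.cmp_val, Datum.ltens_val]
  have h1 : (((D.mulB ι κ).tens Z).comp ((PMap.ofHomeo (LC.rr (D.B ι) Z (D.B κ))).comp
      ((PMap.box F (D.shatG κ)).comp (PMap.ofHomeo (piG D ι κ K))))) (v, (Q, k)) =
      bnd (bnd (F ((D.splitA ι κ v).1, k)) (fun a => bnd (D.shatG κ ((D.splitA ι κ v).2, Q))
        (fun b => (((a, b) : ((D.B ι).prod Z) × (D.B κ)) :
          OnePoint (((D.B ι).prod Z) × (D.B κ)))))) (fun c =>
        (((D.mulBFun ι κ (c.1.1, c.2), c.1.2) : (D.B (ι ⊕ κ)) × Z) :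
          OnePoint ((D.B (ι ⊕ κ)) × Z))) := by
    rw [comp_bnd, comp_bnd, comp_bnd]
    change bnd (bnd (PMap.box F (D.shatG κ) (((D.splitA ι κ v).1, k), ((D.splitA ι κ v).2, Q)))
      _) _ = _
    rw [box_bnd, bnd_assoc]
    rfl
  rw [h1]
  rcases F ((D.splitA ι κ v).1, k) with _ | p
  · rfl
  · change bnd ((((Datum.Rep.taut D κ).tens Z).post (PMap.ofHomeo (LC.lunit Z)))
      ((D.splitA ι κ v).2, (Q, p.2))) _ = bnd (bnd (D.shatG κ ((D.splitA ι κ v).2, Q)) _) _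
    rw [Datum.post_val, Datum.tens_val, Datum.taut_val]
    rcases D.shatG κ ((D.splitA ι κ v).2, Q) with _ | b
    · rfl
    · rfl

end

/-! ## The class of the representative -/

section
variable {R : Biv} (P : PRTheory R) {D : Datum} {ι : Type} [Fintype ι] {K Z : LC}

theorem hat_mulG (κ : Type) [Fintype κ] (F : D.Rep ι K Z) : hat P (R.J (mulG κ F)) =
    P.comp (jh P.toBiv (piG D ι κ K)) (P.comp (P.tens (hat P (R.J F)) ((D.A κ).prod (LC.G κ)))
      (P.comp (P.ltens ((SS D ι).prod Z) (P.comp (P.J (D.shatG κ)) (gh P.toGBiv D κ))) (P.comp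
        (jh P.toBiv (LC.rr (SS D ι) Z (SS D κ))) (P.tens (jh P.toBiv (mS D ι κ)) Z)))) := by
  have e1 : P.inc (R.J (mulG κ F)) = P.comp (jh P.toBiv (piG D ι κ K))
      (P.comp (P.comp (P.tens (P.inc (R.J F)) ((D.A κ).prod (LC.G κ)))
        (P.ltens ((D.B ι).prod Z) (P.J (D.shatG κ))))
      (P.comp (jh P.toBiv (LC.rr (D.B ι) Z (D.B κ))) (P.tens (P.J (D.mulB ι κ)) Z))) := by
    rw [P.inc_J, mulG_eq, P.J_comp, P.J_comp, P.J_comp, J_box, P.inc_J, P.tens_J (D.mulB ι κ) Z]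
    simp only [P.assoc]
    rfl
  have e2 : P.comp (jh P.toBiv (LC.rr (D.B ι) Z (D.B κ))) (P.tens (P.tens (gh P.toGBiv D ι) (D.B κ)) Z)
      = P.comp (P.tens (P.tens (gh P.toGBiv D ι) Z) (D.B κ))
        (jh P.toBiv (LC.rr (SS D ι) Z (D.B κ))) := by
    rw [tens_tens_eq_pl, tens_tens_eq_pl]
    exact pl_comm (R := P.toBiv) (gh P.toGBiv D ι) (LC.swap Z (D.B κ)) _ _ _ _ _ _ (fun _ => rfl)
      (fun _ => rfl)
  have e3 : P.comp (jh P.toBiv (LC.rr (SS D ι) Z (D.B κ)))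
      (P.tens (P.ltens (SS D ι) (gh P.toGBiv D κ)) Z) =
      P.comp (P.ltens ((SS D ι).prod Z) (gh P.toGBiv D κ))
        (jh P.toBiv (LC.rr (SS D ι) Z (SS D κ))) := by
    rw [ltens_eq_pl, tens_pl, ltens_eq_pl]
    exact pl_comm (R := P.toBiv) (gh P.toGBiv D κ) (Homeomorph.refl _) _ _ _ _ _ _ (fun _ => rfl)
      (fun _ => rfl)
  have e4 : P.comp (P.ltens ((D.B ι).prod Z) (P.J (D.shatG κ)))
      (P.tens (P.tens (gh P.toGBiv D ι) Z) (D.B κ)) =
      P.comp (P.tens (P.tens (gh P.toGBiv D ι) Z) ((D.A κ).prod (LC.G κ)))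
        (P.ltens ((SS D ι).prod Z) (P.J (D.shatG κ))) := (P.exch _ _).symm
  have e6 : P.comp (P.tens (P.J (D.mulB ι κ)) Z) (P.tens (gh P.toGBiv D (ι ⊕ κ)) Z) =
      P.comp (P.tens (P.tens (gh P.toGBiv D ι) (D.B κ)) Z) (P.comp
        (P.tens (P.ltens (SS D ι) (gh P.toGBiv D κ)) Z) (P.tens (jh P.toBiv (mS D ι κ)) Z)) := by
    rw [← P.tens_comp, J_mulB', P.tens_comp, P.tens_comp]
  rw [hat, e1]
  simp only [P.assoc]
  rw [e6, ← P.assoc (jh P.toBiv (LC.rr (D.B ι) Z (D.B κ))), e2, P.assoc,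
    ← P.assoc (jh P.toBiv (LC.rr (SS D ι) Z (D.B κ))), e3, P.assoc, ← P.assoc (P.ltens _ _)
      (P.tens (P.tens _ _) _), e4, P.assoc, ← P.assoc (P.tens (P.inc (R.J F)) _), ← P.tens_comp,
    ← P.assoc (P.ltens ((SS D ι).prod Z) (P.J (D.shatG κ))), ← ltens_comp]
  rfl

end

/-- the main identity, in general form -/
theorem gm_aux {R : Biv} {A A' G K N S : LC} (z : R.Hom (A.prod K) N) (s : R.Hom A' S)
    (g : R.Hom G LC.point) (π : (A.prod A').prod (G.prod K) ≃ₜ (A.prod K).prod (A'.prod G))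
    (hπ : ∀ v, π v = ((v.1.1, v.2.2), (v.1.2, v.2.1))) :
    R.comp (jh R π) (R.comp (R.tens z (A'.prod G)) (R.ltens N (R.comp (R.tens s G)
      (R.comp (R.ltens S g) (jh R (K := S.prod LC.point) (L := S)
        (Homeomorph.prodPUnit S)))))) =
    R.comp (jh R (LC.rr A A' (G.prod K))) (R.comp
      (R.tens (R.comp (R.ltens A (R.act g K)) z) A') (R.ltens N s)) := by
  have h1 : R.comp (R.tens s G) (R.comp (R.ltens S g) (jh R (K := S.prod LC.point) (L := S)
      (Homeomorph.prodPUnit S))) = R.comp (R.ltens A' g) (R.comp (jh R (K := A'.prod LC.point)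
        (L := A') (Homeomorph.prodPUnit A')) s) := by
    have h2 : R.comp (R.tens s LC.point) (jh R (K := S.prod LC.point) (L := S)
      (Homeomorph.prodPUnit S)) = R.comp (jh R (K := A'.prod LC.point)
        (L := A') (Homeomorph.prodPUnit A')) s := R.tens_point s
    rw [← R.assoc, R.exch, R.assoc, h2]
  rw [h1, ltens_comp, ← R.assoc (R.tens z _), R.exch, ltens_comp, R.tens_comp]
  simp only [R.assoc]
  rw [← R.assoc (R.tens z _) (R.ltens N (jh R _)), R.exch z (jh R (K := A'.prod LC.point)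
        (L := A') (Homeomorph.prodPUnit A'))]
  simp only [← R.assoc]
  congr 2
  simp only [R.assoc]
  rw [Biv.act, ltens_eq_pl g, ltens_pl, ltens_jh, pl_jh, jh_pl]
  have h3 : jh R (LC.lunit K) = jh R (lu K) := rfl
  rw [tens_eq_pl g K, pl_jh, ltens_pl, tens_pl, jh_pl]
  exact pl_congr g (Homeomorph.refl _) _ _ _ _ (fun v => by
    change ((π v).2.2, ((π v).1, (π v).2.1)) = _
    rw [hπ]
    rfl) (fun _ => rfl)

end Pool.Agent.Helper49.Stab
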