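import Pool.Agent.Helper49.Stab.NtrF

/-! The relation for the product with the class of a tautological bundle. -/

open CategoryTheory Topology Filter Set Opposite

noncomputable section

namespace Pool.Agent.Helper49.Stab

open Pool.Agent.Helper1.Stab Pool.Agent.Helper63.Stab Pool.Agent.Helper67.Stab

section
variable {R : Biv} {P : PRTheory R} {D : Datum} {V : LC} [Crd V] {x : P.Hom V LC.point}
  (G : NC67.Good (P := P) D x)

/-- the reordering -/
def piX (A A' G K : LC) : (A.prod A').prod (G.prod K) ≃ₜ (A.prod K).prod (A'.prod G) where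
  toFun v := ((v.1.1, v.2.2), (v.1.2, v.2.1))
  invFun v := ((v.1.1, v.2.1), (v.2.2, v.1.2))
  left_inv _ := rfl
  right_inv _ := rfl
  continuous_toFun := by fun_prop
  continuous_invFun := by fun_prop

include G in
theorem rel_mulG {ι : Type} [Fintype ι] {K Z : LC} (κ : Type) [Fintype κ] {F : D.Rep ι K Z}
    {n : ℕ} {y' : P.Hom ((LC.ipow V n).prod K) Z} (h : Rel (hat P (R.J F)) y') :
    Rel (hat P (R.J (mulG κ F))) (NC67.nxt (R := P.toBiv) x (P.comp (P.ltens (LC.ipow V n)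
      (P.act (P.g κ) K)) y') (Fintype.card κ)) := by
  have h1 := h.pre (P.act (P.g κ) K)
  have h2 := (h1.mul (NC67.like_shC x G.like κ)).perms (splitA_perm (D := D) ι κ)
    (mS_perm (D := D) (ι := ι) (κ := κ))
  obtain ⟨p, hp, h3⟩ := NC67.exists_mulX_xp (R := P.toBiv) x (P.comp (P.ltens (LC.ipow V n)
      (P.act (P.g κ) K)) y') (Fintype.card κ)
  have e0 : jh P.toBiv (piG D ι κ K) = P.comp (jh P.toBiv
      (K := (D.A (ι ⊕ κ)).prod ((LC.G κ).prod K)) (L := ((D.A ι).prod (D.A κ)).prod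
        ((LC.G κ).prod K)) ((D.splitA ι κ).prodCongr (Homeomorph.refl ((LC.G κ).prod K))))
        (jh P.toBiv (piX (D.A ι) (D.A κ) (LC.G κ) K)) := by
    rw [← jh_trans]
    exact jh_congr _ fun _ => rfl
  have e1 : hat P (R.J (mulG κ F)) = P.comp (jh P.toBiv
      (K := (D.A (ι ⊕ κ)).prod ((LC.G κ).prod K)) (L := ((D.A ι).prod (D.A κ)).prod
        ((LC.G κ).prod K)) ((D.splitA ι κ).prodCongr (Homeomorph.refl ((LC.G κ).prod K))))
      (P.comp (P.comp (jh P.toBiv (LC.rr (D.A ι) (D.A κ) ((LC.G κ).prod K)))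
        (P.comp (P.tens (P.comp (P.ltens (D.A ι) (P.act (P.g κ) K)) (hat P (R.J F))) (D.A κ))
        (P.comp (P.ltens ((SS D ι).prod Z) (shC P.toGBiv D κ))
        (jh P.toBiv (LC.rr (SS D ι) Z (SS D κ))))))
        (jh P.toBiv (K := ((SS D ι).prod (SS D κ)).prod Z) (L := (SS D (ι ⊕ κ)).prod Z)
          ((mS D ι κ).prodCongr (Homeomorph.refl Z)))) := by
    have h4 := gm_aux (R := P.toBiv) (hat P (R.J F)) (shC P.toGBiv D κ) (P.g κ)
      (piX (D.A ι) (D.A κ) (LC.G κ) K) (fun _ => rfl)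
    rw [hat_mulG, J_shatG, e0, tens_jh]
    have h5 := congrArg (fun t => P.comp (jh P.toBiv
      (K := (D.A (ι ⊕ κ)).prod ((LC.G κ).prod K)) (L := ((D.A ι).prod (D.A κ)).prod
        ((LC.G κ).prod K)) ((D.splitA ι κ).prodCongr (Homeomorph.refl ((LC.G κ).prod K))))
        (P.comp t (P.comp (jh P.toBiv (LC.rr (SS D ι) Z (SS D κ)))
        (jh P.toBiv (K := ((SS D ι).prod (SS D κ)).prod Z) (L := (SS D (ι ⊕ κ)).prod Z)
          ((mS D ι κ).prodCongr (Homeomorph.refl Z)))))) h4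
    simp only [P.assoc] at h5 ⊢
    exact h5
  rw [e1]
  rw [h3] at h2
  exact h2.of_perm hp

variable {Θ : Fam R} {a' : R.Hom V LC.point} {T : LocTheory D} (H : Hyp (P := P) Θ a' x)

include G H in
/-- the product with a tautological bundle -/
theorem cor_g (κ : Type) [Fintype κ] {K Z : LC} {t : T.Hom K Z} {s : R.Hom K Z}
    (h : Cor Θ a' T P t s) :
    ∃ (s' : R.Hom ((LC.G κ).prod K) Z) (n : ℕ) (y' : P.Hom ((LC.ipow V n).prod K) Z),
      Cor Θ a' T P (T.mulx (T.g κ) t) s' ∧ Psi P Θ y' = mpow a' s n ∧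
      Psi P Θ (P.comp (P.ltens (LC.ipow V n) (P.act (P.g κ) K)) y') = mpow a' s' n := by
  obtain ⟨ι, _, F, n, y', rfl, hr, hs⟩ := h
  obtain ⟨s', hs'⟩ := (H.bij ((LC.G κ).prod K) Z n).2
    (Psi P Θ (P.comp (P.ltens (LC.ipow V n) (P.act (P.g κ) K)) y'))
  have hs2 : Psi P Θ (P.comp (P.ltens (LC.ipow V n) (P.act (P.g κ) K)) y') = mpow a' s' n :=
    hs'.symm
  refine ⟨s', n, y', ⟨ι ⊕ κ, inferInstance, mulG κ F, _, _, (cls_mulG T κ F).symm,
    rel_mulG G κ hr, ?_⟩, hs, hs2⟩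
  rw [Psi_nxt H, hs2, nxt_mpow]

end

end Pool.Agent.Helper49.Stab
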