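import Pool.Agent.Helper49.Stab.NtrG

/-! Additivity of natural transformations. -/

open CategoryTheory Topology Filter Set Opposite

noncomputable section

namespace Pool.Agent.Helper49.Stab

open Pool.Agent.Helper1.Stab Pool.Agent.Helper63.Stab Pool.Agent.Helper67.Stab

section
variable {T R : Biv} (F : ∀ {K Z : LC}, T.Hom K Z → R.Hom K Z)
  (pre : ∀ {K K' Z : LC} (f : PMap K' K.plus) (x : T.Hom K Z),
    F (T.comp (T.J f) x) = R.comp (R.J f) (F x))
  (tens : ∀ {K Z : LC} (V : LC) (x : T.Hom K Z), F (T.tens x V) = R.tens (F x) V)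

include pre in
theorem add_of_natural_C {K Z : LC} (x y : T.Hom (LC.C.prod K) Z) : F (x + y) = F x + F y := by
  obtain ⟨c1, hc1⟩ : ∃ c1 : PMap ((LC.C.prod K).sum (LC.C.prod K)) (LC.C.prod K).plus,
      c1 = (PMap.id (LC.C.prod K)).copair (PMap.zero _ _) := ⟨_, rfl⟩
  obtain ⟨c2, hc2⟩ : ∃ c2 : PMap ((LC.C.prod K).sum (LC.C.prod K)) (LC.C.prod K).plus,
      c2 = (PMap.zero _ _).copair (PMap.id (LC.C.prod K)) := ⟨_, rfl⟩
  have e11 : c1.comp (PMap.inl (LC.C.prod K) (LC.C.prod K)) = PMap.id _ := by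
    rw [hc1]; ext k; rfl
  have e12 : c1.comp (PMap.inr (LC.C.prod K) (LC.C.prod K)) = PMap.zero _ _ := by
    rw [hc1]; ext k; rfl
  have e21 : c2.comp (PMap.inl (LC.C.prod K) (LC.C.prod K)) = PMap.zero _ _ := by
    rw [hc2]; ext k; rfl
  have e22 : c2.comp (PMap.inr (LC.C.prod K) (LC.C.prod K)) = PMap.id _ := by
    rw [hc2]; ext k; rfl
  obtain ⟨w, hw⟩ : ∃ w, w = T.comp (T.J c1) x + T.comp (T.J c2) y := ⟨_, rfl⟩
  have h1 : T.comp (T.J (PMap.inl (LC.C.prod K) (LC.C.prod K))) w = x := by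
    rw [hw, T.comp_add, ← T.assoc, ← T.assoc, ← T.J_comp, ← T.J_comp, e11, e21, T.J_zero,
      T.zero_comp, T.id_comp, add_zero]
  have h2 : T.comp (T.J (PMap.inr (LC.C.prod K) (LC.C.prod K))) w = y := by
    rw [hw, T.comp_add, ← T.assoc, ← T.assoc, ← T.J_comp, ← T.J_comp, e12, e22, T.J_zero,
      T.zero_comp, T.id_comp, zero_add]
  have h3 : x + y = T.comp (T.J (pinchK K)) w := by
    rw [Helper9.Stab.pinch_add, h1, h2]
  rw [h3, pre, Helper9.Stab.pinch_add, ← pre, ← pre, h1, h2]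

include pre tens in
theorem add_of_natural {K Z : LC} (x y : T.Hom K Z) : F (x + y) = F x + F y := by
  refine (R.tens_C_bijective K Z).1 ?_
  change R.tens (F (x + y)) LC.C = R.tens (F x + F y) LC.C
  rw [R.tens_add, ← tens, ← tens, ← tens, T.tens_add]
  obtain ⟨u, hu⟩ : ∃ u, u = T.tens x LC.C := ⟨_, rfl⟩
  obtain ⟨v, hv⟩ : ∃ v, v = T.tens y LC.C := ⟨_, rfl⟩
  rw [← hu, ← hv]
  have h1 := add_of_natural_C F pre (T.comp (jh T (LC.swap LC.C K)) u)
    (T.comp (jh T (LC.swap LC.C K)) v)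
  rw [← T.comp_add] at h1
  have h2 : ∀ w : T.Hom (K.prod LC.C) (Z.prod LC.C), F (T.comp (jh T (LC.swap LC.C K)) w) =
      R.comp (jh R (LC.swap LC.C K)) (F w) := fun w => pre _ w
  rw [h2, h2, h2, ← R.comp_add] at h1
  have h3 := congrArg (fun t => R.comp (jh R (LC.swap K LC.C)) t) h1
  have h4 : ∀ w : R.Hom (K.prod LC.C) (Z.prod LC.C), R.comp (jh R (LC.swap K LC.C))
      (R.comp (jh R (LC.swap LC.C K)) w) = w := fun w => jh_comp_symm R (LC.swap K LC.C) w
  simp only [h4] at h3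
  exact h3

end

/-! ## The transformation -/

section
variable {R : Biv} {P : PRTheory R} {D : Datum} {V : LC} [Crd V] {x : P.Hom V LC.point}
  (G : NC67.Good (P := P) D x) {Θ : Fam R} {a' : R.Hom V LC.point} (T : LocTheory D)
  (H : Hyp (P := P) Θ a' x)

/-- the transformation -/
def FF {K Z : LC} (t : T.Hom K Z) : R.Hom K Z := (cor_exists G (T := T) H t).choose

theorem FF_spec {K Z : LC} (t : T.Hom K Z) : Cor Θ a' T P t (FF G T H t) :=
  (cor_exists G (T := T) H t).choose_spec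

theorem FF_eq {K Z : LC} {t : T.Hom K Z} {s : R.Hom K Z} (h : Cor Θ a' T P t s) :
    FF G T H t = s := cor_unique G H (FF_spec G T H t) h

theorem FF_pre {K K' Z : LC} (f : PMap K' K.plus) (t : T.Hom K Z) :
    FF G T H (T.comp (T.J f) t) = R.comp (R.J f) (FF G T H t) :=
  FF_eq G T H (cor_pre f (FF_spec G T H t))

theorem FF_post {K Z Z' : LC} (f : PMap Z Z'.plus) (t : T.Hom K Z) :
    FF G T H (T.comp t (T.J f)) = R.comp (FF G T H t) (R.J f) :=
  FF_eq G T H (cor_post f (FF_spec G T H t))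

theorem FF_tens {K Z : LC} (W : LC) (t : T.Hom K Z) :
    FF G T H (T.tens t W) = R.tens (FF G T H t) W :=
  FF_eq G T H (cor_tens W (FF_spec G T H t))

theorem FF_add {K Z : LC} (t t' : T.Hom K Z) :
    FF G T H (t + t') = FF G T H t + FF G T H t' :=
  add_of_natural (T := T.toBiv) (R := R) (fun t => FF G T H t) (FF_pre G T H)
    (FF_tens G T H) t t'

/-- the natural transformation -/
def FNtr : NTr T.toBiv R where
  F t := FF G T H t
  add := FF_add G T H
  pre := FF_pre G T H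
  post := FF_post G T H
  tens := FF_tens G T H

end

end Pool.Agent.Helper49.Stab
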