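import Pool.Agent.Helper49.Stab.NtrH

/-! The value of the transformation on the classes of the tautological bundles, and linearity over
the class of the loop. -/

open CategoryTheory Topology Filter Set Opposite

noncomputable section

namespace Pool.Agent.Helper49.Stab

open Pool.Agent.Helper1.Stab Pool.Agent.Helper63.Stab Pool.Agent.Helper67.Stab

theorem exists_jh_of_like {R : Biv} {K L : LC} [Crd K] [Crd L] {z : R.Hom K L}
    (h : Like z (R.J (PMap.id LC.point))) : ∃ e : K ≃ₜ L, IsPerm e ∧ z = jh R e := by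
  obtain ⟨W, _, p, q, hp, hq, rfl⟩ := h
  refine ⟨p.trans q.symm, hp.trans hq.symm, ?_⟩
  rw [pl, tens_id, R.id_comp, ← jh_trans]

section
variable {R : Biv} {V K L Z : LC}

theorem mpow_add (a : R.Hom V LC.point) (s s' : R.Hom K Z) (n : ℕ) :
    mpow a (s + s') n = mpow a s n + mpow a s' n := by
  induction n with
  | zero => exact R.comp_add _ _ _
  | succ n ih =>
    change R.nextx a (mpow a (s + s') n) = R.nextx a (mpow a s n) + R.nextx a (mpow a s' n)
    rw [ih, nextx_def, nextx_def, nextx_def, mulx_add, R.comp_add]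

theorem act_comp (x : R.Hom V LC.point) (y : R.Hom K Z) :
    R.comp (R.act x K) y = R.mulx x y := R.assoc _ _ _

theorem act_left {W : LC} (φ : R.Hom W V) (x : R.Hom V LC.point) (K : LC) :
    R.act (R.comp φ x) K = R.comp (R.tens φ K) (R.act x K) := by
  rw [Biv.act, Biv.act, R.tens_comp, R.assoc]

theorem act_add (x x' : R.Hom V LC.point) (K : LC) :
    R.act (x + x') K = R.act x K + R.act x' K := by
  rw [Biv.act, Biv.act, Biv.act, R.tens_add, R.add_comp]

/-- the reordering -/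
def sg (I V K : LC) : I.prod (V.prod K) ≃ₜ V.prod (I.prod K) where
  toFun v := (v.2.1, (v.1, v.2.2))
  invFun v := (v.2.1, (v.1, v.2.2))
  left_inv _ := rfl
  right_inv _ := rfl
  continuous_toFun := by fun_prop
  continuous_invFun := by fun_prop

theorem act_mulx (I : LC) (x : R.Hom V LC.point) (y : R.Hom (I.prod K) Z) :
    R.comp (R.ltens I (R.act x K)) y = R.comp (jh R (sg I V K)) (R.mulx x y) := by
  have h1 : R.ltens I (R.act x K) = R.comp (jh R (sg I V K)) (R.act x (I.prod K)) := by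
    rw [Biv.act, Biv.act, tens_eq_pl, tens_eq_pl, pl_jh, pl_jh, ltens_pl, jh_pl]
    exact pl_congr x (Homeomorph.refl _) _ _ _ _ (fun _ => rfl) (fun _ => rfl)
  rw [h1, R.assoc, act_comp]

end

section
variable {R : Biv} {P : PRTheory R} {D : Datum} {V : LC} [Crd V] {x : P.Hom V LC.point}
  (G : NC67.Good (P := P) D x) {Θ : Fam R} {a' : R.Hom V LC.point} (T : LocTheory D)
  (H : Hyp (P := P) Θ a' x)

theorem rel_id : Rel (W := D.A (Fin 0)) (W' := SS D (Fin 0)) (U := LC.ipow V 0)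
    (K := LC.point) (Z := LC.point) (hat P (R.J (Datum.Rep.ofMap (D := D) (Fin 0)
      (PMap.id LC.point)))) (jh P.toBiv (lu LC.point)) := by
  obtain ⟨e, he, h⟩ := exists_jh_of_like (like_shC_empty P.toGBiv D (Fin 0))
  have h1 : hat P (R.J (Datum.Rep.ofMap (D := D) (Fin 0) (PMap.id LC.point))) =
      P.tens (shC P.toGBiv D (Fin 0)) LC.point := by
    have h2 : P.J (Datum.Rep.ofMap (D := D) (Fin 0) (PMap.id LC.point)) =
        P.tens (P.J (D.shat (Fin 0))) LC.point := by
      rw [Datum.Rep.ofMap, J_box, ltens_id, P.comp_id]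
    rw [hat, P.inc_J, h2, ← P.tens_comp]
    rfl
  refine ⟨e.trans (Homeomorph.prodPUnit (SS D (Fin 0)) :
    (SS D (Fin 0)).prod LC.point ≃ₜ SS D (Fin 0)).symm, he.trans (IsPerm.prodPUnit _).symm, ?_⟩
  rw [h1, h, tens_jh, ltens_jh, ← jh_trans]
  exact jh_congr _ fun _ => rfl

include G H in
theorem cor_g_id (κ : Type) [Fintype κ] : Cor Θ a' T P (T.mulx (T.g κ) (T.J (PMap.id LC.point)))
    (R.comp (jh R (K := (LC.G κ).prod LC.point) (L := LC.G κ) (Homeomorph.prodPUnit (LC.G κ)))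
      (Θ.θ κ)) := by
  have h1 : P.comp (P.ltens (LC.ipow V 0) (P.act (P.g κ) LC.point)) (jh P.toBiv (lu LC.point)) =
      P.comp (jh P.toBiv (lu ((LC.G κ).prod LC.point))) (P.comp (jh P.toBiv
        (K := (LC.G κ).prod LC.point) (L := LC.G κ) (Homeomorph.prodPUnit (LC.G κ)))
        (P.g κ)) := by
    have h2 : P.act (P.g κ) LC.point = P.comp (jh P.toBiv (K := (LC.G κ).prod LC.point)
        (L := LC.G κ) (Homeomorph.prodPUnit (LC.G κ))) (P.g κ) := P.tens_point (P.g κ)
    rw [h2]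
    exact (lu_nat (R := P.toBiv) (P.comp (jh P.toBiv (K := (LC.G κ).prod LC.point)
        (L := LC.G κ) (Homeomorph.prodPUnit (LC.G κ))) (P.g κ))).symm
  have h3 := rel_mulG G κ (rel_id (P := P) (D := D) (V := V))
  refine ⟨Fin 0 ⊕ κ, inferInstance, mulG κ (Datum.Rep.ofMap (D := D) (Fin 0)
    (PMap.id LC.point)), _, _, ?_, h3, ?_⟩
  · rw [T.J_eq (Fin 0), cls_mulG]
  · have h4 : Psi P Θ (P.comp (P.ltens (LC.ipow V 0) (P.act (P.g κ) LC.point))
        (jh P.toBiv (lu LC.point))) = mpow a' (R.comp (jh R (K := (LC.G κ).prod LC.point)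
          (L := LC.G κ) (Homeomorph.prodPUnit (LC.G κ))) (Θ.θ κ)) 0 := by
      refine (congrArg (fun t => Psi P Θ t) h1).trans ?_
      refine (Psi_jh P Θ _ _).trans (congrArg (fun t => R.comp (jh R
        (lu ((LC.G κ).prod LC.point))) t) ((Psi_jh P Θ _ _).trans ?_))
      rw [Psi_g]
    rw [Psi_nxt H, h4]
    exact nxt_mpow a' _ 0 (Fintype.card κ)

theorem FF_g (κ : Type) [Fintype κ] : FF G T H (T.g κ) = Θ.θ κ := by
  have h1 : T.mulx (T.g κ) (T.J (PMap.id LC.point)) = T.comp (T.J (PMap.ofHomeo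
      (K := (LC.G κ).prod LC.point) (L := LC.G κ) (Homeomorph.prodPUnit (LC.G κ)))) (T.g κ) := by
    rw [mulx_def, T.comp_id]
    exact T.tens_point (T.g κ)
  have h2 := FF_eq G T H (cor_g_id G T H κ)
  rw [h1, FF_pre] at h2
  exact ((R.invP_homeo (K := (LC.G κ).prod LC.point) (L := LC.G κ)
    (Homeomorph.prodPUnit (LC.G κ))).pre_bij R (M := LC.point)).1 h2

end

end Pool.Agent.Helper49.Stab
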